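import Pool.Agent.Helper786_Rig.Fin

/-!
# The pro-`ℓ` covering fields of two superelliptic curves with a map
-/

set_option autoImplicit false
set_option linter.all false

open Polynomial FF Pool.Agent.Y157.PS Pool.Agent.Y158.GR

namespace Pool.Agent.Helper786_Ell

open Pool.Agent.Helper786_Rig

/-- two embeddings of a normal extension with the same restriction have the same image -/
theorem range_eq {R M E : Type} [Field R] [Field M] [Field E] [Algebra R M] [Normal R M]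
    (f g : M →+* E) (h : ∀ r : R, f (algebraMap R M r) = g (algebraMap R M r)) (z : M) :
    ∃ w, f w = g z := by
  letI : Algebra R E := (g.comp (algebraMap R M)).toAlgebra
  let G : M →ₐ[R] E := { g with commutes' := fun r => rfl }
  let F : M →ₐ[R] E := { f with commutes' := fun r => h r }
  haveI : Normal R F.fieldRange := Normal.of_algEquiv (AlgEquiv.ofInjectiveField F)
  let e : M ≃ₐ[R] F.fieldRange := AlgEquiv.ofInjectiveField F
  have h1 : (G.comp (e.symm : F.fieldRange →ₐ[R] M)).fieldRange = F.fieldRange :=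
    AlgHom.fieldRange_of_normal _
  have h2 : g z ∈ F.fieldRange := by
    rw [← h1]
    refine ⟨e z, ?_⟩
    change g (e.symm (e z)) = g z
    rw [e.symm_apply_apply]
  obtain ⟨w, hw⟩ := h2
  exact ⟨w, hw⟩

section cov

variable {ℓ : ℕ} [hℓ : Fact ℓ.Prime] {κ : Type} [Field κ] [IsAlgClosed κ] [CharZero κ]
  {R₁ M₁ : Type} [Field R₁] [Field M₁] [Algebra κ R₁] [Algebra R₁ M₁] [Algebra κ M₁]
  [IsScalarTower κ R₁ M₁] {x₁ : R₁} {B₁ : Finset κ} {Y₁ : M₁}
  {R₂ M₂ : Type} [Field R₂] [Field M₂] [Algebra κ R₂] [Algebra R₂ M₂] [Algebra κ M₂]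
  [IsScalarTower κ R₂ M₂] {x₂ : R₂} {B₂ : Finset κ} {Y₂ : M₂}

/-- **covering fields of superelliptic curves with a map** -/
theorem mono_cov (hC₁ : Cov ℓ κ R₁ M₁ x₁ B₁ Y₁) (hC₂ : Cov ℓ κ R₂ M₂ x₂ B₂ Y₂) {Ω : Type} [Field Ω]
    (u₁ : M₁ →+* Ω) (u₂ : M₂ →+* Ω)
    (hconst : ∀ c : κ, u₁ (algebraMap κ M₁ c) = u₂ (algebraMap κ M₂ c))
    (hX : ∃ w, u₂ w = u₁ (algebraMap R₁ M₁ x₁)) (hY : ∃ w, u₂ w = u₁ Y₁) (z : M₁) :
    ∃ w, u₂ w = u₁ z := by
  obtain ⟨X, hX⟩ := hX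
  obtain ⟨Z, hZ⟩ := hY
  have hXt : Transcendental κ X := by
    intro h
    obtain ⟨c, hc⟩ : ∃ c : κ, algebraMap κ M₂ c = X :=
      minpoly.mem_range_of_degree_eq_one κ X
        (IsAlgClosed.degree_eq_one_of_irreducible κ (minpoly.irreducible h.isIntegral))
    apply trXM hC₁
    have h1 : u₁ (algebraMap R₁ M₁ x₁) = u₁ (algebraMap κ M₁ c) := by rw [hconst, hc, hX]
    rw [u₁.injective h1]
    exact isAlgebraic_algebraMap _
  have hprod : Z ^ ℓ = ∏ e ∈ B₁, (X - algebraMap κ M₂ e) := by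
    apply u₂.injective
    rw [map_pow, hZ, ← map_pow, hC₁.eqn, map_prod, map_prod]
    refine Finset.prod_congr rfl fun e _ => ?_
    rw [map_sub, map_sub, hX, hconst]
  obtain ⟨j, hj⟩ := a_emb ℓ κ R₁ M₁ x₁ B₁ Y₁ hC₁ M₂ Set.univ
    (fun g hg h => hC₂.root g hg fun W => h W trivial) X hXt (fun P _ => by
      rw [← hprod, P.ord_pow]
      exact dvd_mul_right _ _)
  haveI : Normal R₁ M₁ := hC₁.gal.to_normal
  have hR : ∀ r : R₁, (u₂.comp (j : M₁ →+* M₂)) (algebraMap R₁ M₁ r) = u₁ (algebraMap R₁ M₁ r) := by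
    let S : IntermediateField κ R₁ :=
      { carrier := {r | (u₂.comp (j : M₁ →+* M₂)) (algebraMap R₁ M₁ r) = u₁ (algebraMap R₁ M₁ r)}
        mul_mem' := by
          intro a b ha hb
          change _ = _
          rw [map_mul (algebraMap R₁ M₁), map_mul, map_mul u₁, ha, hb]
        one_mem' := by
          change _ = _
          rw [map_one (algebraMap R₁ M₁), map_one, map_one]
        add_mem' := by
          intro a b ha hb
          change _ = _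
          rw [map_add (algebraMap R₁ M₁), map_add, map_add u₁, ha, hb]
        zero_mem' := by
          change _ = _
          rw [map_zero (algebraMap R₁ M₁), map_zero, map_zero]
        algebraMap_mem' := by
          intro c
          change u₂ (j (algebraMap R₁ M₁ (algebraMap κ R₁ c))) = _
          rw [← IsScalarTower.algebraMap_apply κ R₁ M₁, j.commutes, hconst]
        inv_mem' := by
          intro a ha
          change _ = _
          rw [map_inv₀ (algebraMap R₁ M₁), map_inv₀, map_inv₀ u₁, ha] }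
    have h1 : (⊤ : IntermediateField κ R₁) ≤ S := by
      rw [← hC₁.rat.gen, IntermediateField.adjoin_le_iff, Set.singleton_subset_iff]
      change u₂ (j (algebraMap R₁ M₁ x₁)) = _
      rw [hj, hX]
    exact fun r => h1 (IntermediateField.mem_top (x := r))
  obtain ⟨w, hw⟩ := range_eq (u₂.comp (j : M₁ →+* M₂)) u₁ hR z
  exact ⟨j w, hw⟩

end cov

section geo

variable {k F Ω : Type} [Field k] [CharZero k]
    [Field F] [Field Ω] [Algebra k F] [Algebra F Ω] [Algebra k Ω] [IsScalarTower k F Ω]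
    [IsAlgClosed Ω] [Algebra.IsAlgebraic F Ω]

/-- **the pro-`ℓ` covering field of a curve contains the one of a second curve to which it maps** -/
theorem mono_geo {ℓ : ℕ} [hℓ : Fact ℓ.Prime] (F₀ : IntermediateField k F)
    [Algebra.IsAlgebraic F₀ Ω] (f₀ : k[X]) (hs₀ : f₀.Separable)
    (hdvd₀ : ℓ ∣ f₀.natDegree) (h3₀ : 3 ≤ f₀.natDegree) (d₀ : k) (hd₀ : d₀ ≠ 0) (X₀ Y₀ : F₀)
    (hX₀ : Transcendental k X₀) (hXY : algebraMap k F₀ d₀ * Y₀ ^ ℓ = aeval X₀ f₀)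
    (hF₀ : IntermediateField.adjoin k {X₀, Y₀} = (⊤ : IntermediateField k F₀))
    (f : k[X]) (hs : f.Separable) (hdvd : ℓ ∣ f.natDegree) (h3 : 3 ≤ f.natDegree) (d : k)
    (hd : d ≠ 0) (x y : F) (hx : Transcendental k x) (hxy : algebraMap k F d * y ^ ℓ = aeval x f)
    (hF : IntermediateField.adjoin k {x, y} = (⊤ : IntermediateField k F)) :
    ∀ z ∈ geomPro ℓ k F₀ Ω, z ∈ geomPro ℓ k F Ω := by
  have hac : IsAlgClosure k (algebraicClosure k Ω) := inferInstance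
  have hkb : IsAlgClosed (algebraicClosure k Ω) := hac.1
  have hch : CharZero (algebraicClosure k Ω) :=
    charZero_of_injective_algebraMap (algebraMap k (algebraicClosure k Ω)).injective
  have hδ : ∀ (g : k[X]) (c : k), 3 ≤ g.natDegree → c ≠ 0 →
      ∃ δ : algebraicClosure k Ω, δ ≠ 0 ∧ δ ^ ℓ = algebraMap k _ (c / g.leadingCoeff) := by
    intro g c hg hc
    have hg0 : g ≠ 0 := by rintro rfl; simp at hg
    have hc0 : c / g.leadingCoeff ≠ 0 := div_ne_zero hc (leadingCoeff_ne_zero.2 hg0)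
    obtain ⟨δ, hδ⟩ : ∃ δ : algebraicClosure k Ω, δ ^ ℓ = algebraMap k _ (c / g.leadingCoeff) :=
      IsAlgClosed.exists_pow_nat_eq _ hℓ.out.pos
    refine ⟨δ, ?_, hδ⟩
    rintro rfl
    rw [zero_pow hℓ.out.ne_zero, eq_comm, _root_.map_eq_zero] at hδ
    exact hc0 hδ
  obtain ⟨δ₀, hδ₀, hδ₀'⟩ := hδ f₀ d₀ h3₀ hd₀
  obtain ⟨δ, hδ1, hδ2⟩ := hδ f d h3 hd
  obtain ⟨B₁, R₁, M₁, i1, i2, i3, i4, i5, i6, x₁, Y₁, eqv₁, -, -, hC₁, hc₁, hx₁, hy₁⟩ :=
    geoSetup (Ω := Ω) f₀ hs₀ hdvd₀ h3₀ d₀ hδ₀ hδ₀' X₀ Y₀ hX₀ hXY hF₀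
  obtain ⟨B₂, R₂, M₂, j1, j2, j3, j4, j5, j6, x₂, Y₂, eqv₂, -, -, hC₂, hc₂, hx₂, hy₂⟩ :=
    geoSetup (Ω := Ω) f hs hdvd h3 d hδ1 hδ2 x y hx hxy hF
  intro z hz
  have key := mono_cov hC₁ hC₂
    ((algebraMap (geomPro ℓ k F₀ Ω) Ω).comp (eqv₁ : M₁ →+* geomPro ℓ k F₀ Ω))
    ((algebraMap (geomPro ℓ k F Ω) Ω).comp (eqv₂ : M₂ →+* geomPro ℓ k F Ω))
    (fun c => (hc₁ c).trans (hc₂ c).symm)
    ⟨eqv₂.symm (algebraMap F (geomPro ℓ k F Ω) (X₀ : F)), by
      change ((eqv₂ (eqv₂.symm _) : geomPro ℓ k F Ω) : Ω) = _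
      rw [eqv₂.apply_symm_apply]
      exact hx₁.symm⟩
    ⟨eqv₂.symm (⟨(δ₀ : Ω), const_geomPro ℓ k δ₀⟩ * algebraMap F (geomPro ℓ k F Ω) (Y₀ : F)), by
      change ((eqv₂ (eqv₂.symm _) : geomPro ℓ k F Ω) : Ω) = _
      rw [eqv₂.apply_symm_apply]
      exact hy₁.symm⟩ (eqv₁.symm ⟨z, hz⟩)
  obtain ⟨w, hw⟩ := key
  change ((eqv₂ w : geomPro ℓ k F Ω) : Ω) = ((eqv₁ (eqv₁.symm ⟨z, hz⟩) : geomPro ℓ k F₀ Ω) : Ω) at hw
  rw [eqv₁.apply_symm_apply] at hw
  change ((eqv₂ w : geomPro ℓ k F Ω) : Ω) = z at hw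
  rw [← hw]
  exact (eqv₂ w).2

end geo

end Pool.Agent.Helper786_Ell
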