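import Pool.Agent.Helper786_Ell.Desc
import Pool.Agent.Helper786_Ell.Mono
import Pool.Agent.Y158.GR.Gen

/-!
# Sections for curves with a map to the curve `Y² = X⁴ - 1`
-/

set_option autoImplicit false
set_option linter.all false

open Polynomial FF Pool.Agent.Y157.PS Pool.Agent.Y158.GR Pool.Agent.TH954 IsDedekindDomain
  NumberField

namespace Pool.Agent.Helper786_Ell

open Pool.Agent.Helper786_Rig

section restrict

variable {K F Ω C Lv : Type} [Field K] [NumberField K] [Field F] [Field Ω] [Algebra K F]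
  [Algebra F Ω] [Algebra K Ω] [IsScalarTower K F Ω] [IsAlgClosed Ω] [Algebra.IsAlgebraic F Ω]
  [Field C] [Algebra K C] [Field Lv] [Algebra Lv C]

/-- restriction of a section to the covering field of a subfield -/
theorem restrict_sec {ℓ : ℕ} [Fact ℓ.Prime] (F₀ : IntermediateField K F)
    [Algebra.IsAlgebraic F₀ Ω]
    (hst : ∀ σ : Ω ≃ₐ[F₀] Ω, ∀ z ∈ geomPro ℓ K F₀ Ω, σ z ∈ geomPro ℓ K F₀ Ω)
    (N : IntermediateField F Ω) (hN : ∀ z ∈ geomPro ℓ K F₀ Ω, z ∈ N)
    (s : GalSection K F N (algebraicClosure K Ω)) (hj : ∀ z, ((s.j z : N) : Ω) = (z : Ω))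
    (p : Plc K N C) (hp : s.GivenBy Lv p) :
    ∃ (s₀ : GalSection K F₀ (geomPro ℓ K F₀ Ω) (algebraicClosure K Ω))
      (p₀ : Plc K (geomPro ℓ K F₀ Ω) C),
      (∀ z, ((s₀.j z : geomPro ℓ K F₀ Ω) : Ω) = (z : Ω)) ∧ s₀.GivenBy Lv p₀ ∧
      ∀ (w : geomPro ℓ K F₀ Ω) (c : C), p₀.val w c ↔ p.val ⟨(w : Ω), hN _ w.2⟩ c := by
  obtain ⟨Φ, hΦc, hΦ⟩ := Pool.Agent.Y674.PS.restr' (F₀ := F₀) (Ω₀ := Ω) (F := F) (Ω := Ω)
    (algebraMap F₀ F) (RingHom.id Ω) (fun a => rfl) (geomPro ℓ K F₀ Ω) N hN (fun σ z hz =>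
      ⟨σ z, hst (σ.restrictScalars F₀) z hz, rfl⟩)
  have hΦ' : ∀ (e : N ≃ₐ[F] N) (z : N) (w : geomPro ℓ K F₀ Ω), (w : Ω) = (z : Ω) →
      ((Φ e w : geomPro ℓ K F₀ Ω) : Ω) = ((e z : N) : Ω) := hΦ
  haveI : IsScalarTower K N Ω := IsScalarTower.of_algebraMap_eq fun _ => rfl
  let j₀ : algebraicClosure K Ω →ₐ[K] geomPro ℓ K F₀ Ω :=
    { toFun := fun z => ⟨(z : Ω), const_geomPro ℓ K z⟩
      map_one' := rfl
      map_mul' := fun _ _ => rfl
      map_zero' := rfl
      map_add' := fun _ _ => rfl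
      commutes' := fun c => rfl }
  have hj₀ : ∀ z, ((j₀ z : geomPro ℓ K F₀ Ω) : Ω) = (z : Ω) := fun z => rfl
  let s₀ : GalSection K F₀ (geomPro ℓ K F₀ Ω) (algebraicClosure K Ω) :=
    { j := j₀
      s := Φ.comp s.s
      cont := hΦc.comp s.cont
      sec := by
        intro σ z
        apply Subtype.ext
        have h1 := hΦ' (s.s σ) (s.j z) (j₀ z) (by rw [hj, hj₀])
        rw [s.sec, hj] at h1
        exact h1 }
  have hs₀ : ∀ σ (z : N) (w : geomPro ℓ K F₀ Ω), (w : Ω) = (z : Ω) →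
      ((s₀.s σ w : geomPro ℓ K F₀ Ω) : Ω) = ((s.s σ z : N) : Ω) := fun σ z w h => hΦ' _ z w h
  let i : geomPro ℓ K F₀ Ω →+* N :=
    { toFun := fun w => ⟨(w : Ω), hN _ w.2⟩
      map_one' := rfl
      map_mul' := fun _ _ => rfl
      map_zero' := rfl
      map_add' := fun _ _ => rfl }
  have hi : ∀ w, ((i w : N) : Ω) = (w : Ω) := fun w => rfl
  have hiK : ∀ c : K, i (algebraMap K (geomPro ℓ K F₀ Ω) c) = algebraMap K N c := fun c =>
    Subtype.ext rfl
  have his : ∀ σ w, i (s₀.s σ w) = s.s σ (i w) := fun σ w =>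
    Subtype.ext (hs₀ σ (i w) w rfl)
  have hij : ∀ z, i (j₀ z) = s.j z := fun z => by
    apply Subtype.ext
    rw [hi, hj₀, hj]
  refine ⟨s₀, resPlc i hiK p, hj₀, ?_, fun w c => Iff.rfl⟩
  intro τ σ h w c hw
  rw [resPlc_val] at hw ⊢
  rw [his]
  refine hp τ σ (fun z c' hz => ?_) _ _ hw
  have h1 := h z c' (by
    rw [resPlc_val]
    change p.val (i (j₀ z)) c'
    rw [hij]
    exact hz)
  rw [resPlc_val] at h1
  change p.val (i (j₀ (σ z))) (τ c') at h1
  rw [hij] at h1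
  exact h1

end restrict

section quartic

variable {K F Ω C : Type} [Field K] [NumberField K] [Field F] [Field Ω] [Algebra K F]
  [Algebra F Ω] [Algebra K Ω] [IsScalarTower K F Ω] [IsAlgClosed Ω] [Algebra.IsAlgebraic F Ω]
  [Field C] [Algebra K C] [Algebra K ℚ_[2]] [Algebra ℚ_[2] C] [IsScalarTower K ℚ_[2] C]
  [IsAlgClosure ℚ_[2] C]

theorem quartic_natDegree (R : Type) [CommRing R] [Nontrivial R] :
    (X ^ 4 - 1 : R[X]).natDegree = 4 := by
  rw [← C_1, natDegree_X_pow_sub_C]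

theorem quartic_monic (R : Type) [CommRing R] [Nontrivial R] : (X ^ 4 - 1 : R[X]).Monic := by
  rw [← C_1]
  exact monic_X_pow_sub_C _ (by norm_num)

theorem quartic_sep {E : Type} [Field E] (h : (2 : E) ≠ 0) : (X ^ 4 - 1 : E[X]).Separable := by
  rw [← C_1]
  refine separable_X_pow_sub_C 1 ?_ one_ne_zero
  have h1 : ((4 : ℕ) : E) = 2 * 2 := by push_cast; norm_num
  rw [h1]
  exact mul_ne_zero h h

/-- the case of the curve itself -/
theorem ellK (hL : LocPow 2 (PAt K 10) ℚ_[2]) (h5 : ¬ DvdOutside 2 (PAt K 2) (5 : K)) (x y : F)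
    (hx : Transcendental K x)
    (hF : IntermediateField.adjoin K {x, y} = (⊤ : IntermediateField K F))
    (hxy : y ^ 2 = x ^ 4 - 1) (s : GalSection K F (geomPro 2 K F Ω) (algebraicClosure K Ω))
    (hj : ∀ z, ((s.j z : geomPro 2 K F Ω) : Ω) = (z : Ω)) (p : Plc K (geomPro 2 K F Ω) C)
    (hpv : s.GivenBy ℚ_[2] p) :
    p.val (algebraMap F (geomPro 2 K F Ω) x) 1 ∨ p.val (algebraMap F (geomPro 2 K F Ω) x) (-1) ∨
      p.val (algebraMap F (geomPro 2 K F Ω) x)⁻¹ 0 := by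
  classical
  haveI hp2 : Fact (Nat.Prime 2) := ⟨Nat.prime_two⟩
  have hac : IsAlgClosure K (algebraicClosure K Ω) := inferInstance
  have hkb : IsAlgClosed (algebraicClosure K Ω) := hac.1
  have hch : CharZero (algebraicClosure K Ω) :=
    charZero_of_injective_algebraMap (algebraMap K (algebraicClosure K Ω)).injective
  have hkalg : Algebra.IsAlgebraic K (algebraicClosure K Ω) := inferInstance
  have hnorm : Normal K (algebraicClosure K Ω) := IsAlgClosure.normal K _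
  have h2K : (2 : K) ≠ 0 := two_ne_zero
  obtain ⟨B, R, M, i1, i2, i3, i4, i5, i6, x', Y, eqv, hB, hcard, hC, hc, hx', hy'⟩ :=
    geoSetup (Ω := Ω) (ℓ := 2) (X ^ 4 - 1 : K[X]) (quartic_sep h2K)
      (by rw [quartic_natDegree]; norm_num) (by rw [quartic_natDegree]; norm_num) 1
      (δ := 1) one_ne_zero (by rw [(quartic_monic K).leadingCoeff, div_one, map_one, one_pow])
      x y hx (by rw [map_one, one_mul, map_sub, map_pow, aeval_X, map_one, hxy]) hF
  have hcompat : ∀ σ (c : algebraicClosure K Ω) (z : geomPro 2 K F Ω), (z : Ω) = (c : Ω) →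
      (s.s σ z : Ω) = (σ c : Ω) := by
    intro σ c z hz
    have h1 : z = s.j c := Subtype.ext (hz.trans (hj c).symm)
    rw [h1, s.sec, hj]
  have hSec := sec_of one_ne_zero hc hx' hy' s.s s.cont hcompat
  have hs' : ∀ σ z, eqv (conjSec eqv s.s σ z) = s.s σ (eqv z) := fun σ z =>
    conjSec_apply eqv s.s σ z
  let φ : fixL s →+* M := (eqv.symm : geomPro 2 K F Ω →+* M).comp (algebraMap (fixL s) _)
  have hφ : ∀ l : fixL s, eqv (φ l) = (l : geomPro 2 K F Ω) := fun l => eqv.apply_symm_apply _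
  have hFx : Fx (κ := algebraicClosure K Ω) (conjSec eqv s.s) φ := by
    refine ⟨fun c => ?_, fun l σ => ?_, fun z hz => ?_⟩
    · apply eqv.injective
      apply Subtype.ext
      rw [hφ, hc]
      rfl
    · apply eqv.injective
      rw [hs', hφ]
      exact l.2 σ
    · refine ⟨⟨eqv z, fun σ => by rw [← hs', hz σ]⟩, ?_⟩
      apply eqv.injective
      rw [hφ]
  have hζ : IsPrimitiveRoot (-1 : K) 2 := IsPrimitiveRoot.neg_one 0 (by norm_num)
  have hkum := kumT hζ hC (Act.of_sec hSec) hFx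
  have hT : ∀ v, v ∉ PAt K 2 → ((2 : ℕ) : 𝓞 K) ∉ v.asIdeal := fun v hv => hv
  have hgood : ∀ v, v ∉ PAt K 2 → ∀ V : ValuationSubring (algebraicClosure K Ω), Above v V →
      Good V B := by
    intro v hv V hV
    have h2v : (2 : 𝓞 K ⧸ v.asIdeal) ≠ 0 := by
      intro h
      apply hv
      change ((2 : ℕ) : 𝓞 K) ∈ v.asIdeal
      rw [← Ideal.Quotient.eq_zero_iff_mem, map_natCast]
      exact_mod_cast h
    haveI : v.asIdeal.IsMaximal := v.isMaximal
    letI := Ideal.Quotient.field v.asIdeal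
    refine good_of (X ^ 4 - 1 : (𝓞 K)[X]) ?_ ?_ hV fun θ hθ => ?_
    · rw [(quartic_monic (𝓞 K)).leadingCoeff]
      intro h
      exact v.isPrime.ne_top ((Ideal.eq_top_iff_one _).2 h)
    · rw [Polynomial.map_sub, Polynomial.map_pow, Polynomial.map_X, Polynomial.map_one]
      exact quartic_sep h2v
    · rw [Polynomial.map_sub, Polynomial.map_pow, Polynomial.map_X, Polynomial.map_one]
      exact (hB θ).1 hθ
  have hdat := datT hC hT hgood (δ := 1) one_ne_zero
    (fun v hv V hV σ hσ => map_one σ) hSec hFx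
  have hXY : (⟨_, F_fixL s y⟩ : fixL s) ^ 2 = (⟨_, F_fixL s x⟩ : fixL s) ^ 4 - 1 := by
    apply Subtype.ext
    change (algebraMap F (geomPro 2 K F Ω) y) ^ 2 = (algebraMap F (geomPro 2 K F Ω) x) ^ 4 - 1
    rw [← map_pow, ← map_pow, hxy, map_sub, map_one]
  rcases quartic hkum hdat (plcL hpv) hL h5 hXY with h | h | h
  · left
    have h1 := plcL_val h
    rwa [map_one] at h1
  · right; left
    have h1 := plcL_val h
    rwa [map_neg, map_one] at h1
  · right; right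
    have h1 := plcL_val h
    rwa [map_zero] at h1

end quartic

end Pool.Agent.Helper786_Ell
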