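import Pool.Agent.Y158.GR.KumD
import Pool.Agent.Helper786_Rig.Fin

/-!
# The fixed field of a section: Kummer theory and the Gauss valuations, over number fields
-/

set_option autoImplicit false
set_option linter.all false

open Polynomial FF Pool.Agent.Y157.PS Pool.Agent.Y158.GR IsDedekindDomain NumberField

namespace Pool.Agent.Helper786_Ell

open Pool.Agent.Helper786_Rig

variable {K κ : Type} [Field K] [NumberField K] [Field κ] [Algebra K κ] [IsAlgClosure K κ] {ℓ : ℕ}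
  [hp : Fact ℓ.Prime] {ζ : K}
  {R M : Type} [Field R] [Field M] [Algebra κ R] [Algebra R M] [Algebra κ M]
  [IsScalarTower κ R M] {x : R} {B : Finset κ} {Y : M}
  {s : (κ ≃ₐ[K] κ) →* RingAut M} {L : Type} [Field L] [Algebra K L] {φ : L →+* M}

theorem mu_fix (hζ : IsPrimitiveRoot ζ ℓ) (σ : κ ≃ₐ[K] κ) (c : κ) (hc : c ^ ℓ = 1) : σ c = c := by
  haveI : NeZero ℓ := ⟨hp.out.ne_zero⟩
  have h1 : IsPrimitiveRoot (algebraMap K κ ζ) ℓ := hζ.map_of_injective (algebraMap K κ).injective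
  obtain ⟨i, -, hi⟩ := h1.eq_pow_of_pow_eq_one hc
  rw [← hi, ← map_pow, σ.commutes]

/-- Kummer theory for the fixed field -/
theorem kumT (hζ : IsPrimitiveRoot ζ ℓ) (hC : Cov ℓ κ R M x B Y) (hs : Act K κ R M x s)
    (hφ : Fx (κ := κ) s φ) : Pool.Agent.Y158.KL.Kum ℓ K L := by
  intro w hw hloc
  have : Algebra.IsAlgebraic K κ := IsAlgClosure.isAlgebraic
  have : IsAlgClosed κ := IsAlgClosure.isAlgClosed K
  have : Normal K κ := IsAlgClosure.normal K κ
  have : IsGalois K κ := IsGalois.mk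
  have : CharZero κ := charZero_of_injective_algebraMap (algebraMap K κ).injective
  have hℓ0 : ℓ ≠ 0 := hp.out.ne_zero
  have hμ := mu_fix (κ := κ) hζ
  have hφw : φ w ≠ 0 := (map_ne_zero_iff _ φ.injective).2 hw
  obtain ⟨h, hh⟩ := hC.root (φ w) hφw (fun W => by
    obtain ⟨t, ht, hwt⟩ := hloc (W.O.comap φ) (fun c => by
      rw [ValuationSubring.mem_comap, hφ.const, Place.mem_O]
      exact W.reg_const _)
    have h1 := ord_of_isU W (isU_of_val φ W.O ht hwt)
    have hφt : φ t ≠ 0 := (map_ne_zero_iff _ φ.injective).2 ht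
    rw [map_div₀, map_pow, W.ord_div hφw (pow_ne_zero _ hφt), W.ord_pow] at h1
    exact ⟨W.ord (φ t), by linarith⟩)
  have hh0 : h ≠ 0 := by
    rintro rfl
    rw [zero_pow hℓ0] at hh
    exact hφw hh.symm
  have h1 : ∀ σ : κ ≃ₐ[K] κ, ∃ c : κ, c ^ ℓ = 1 ∧ s σ h = algebraMap κ M c * h := by
    intro σ
    have h2 : (s σ h / h) ^ ℓ = 1 := by
      rw [div_pow, ← map_pow, hh, hφ.fix, div_self hφw]
    obtain ⟨c, hc, hc'⟩ := Pool.Agent.Y748.PS.rou_const (κ := κ) hp.out.pos h2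
    exact ⟨c, hc, by rw [hc', div_mul_cancel₀ _ hh0]⟩
  choose χ hχ1 hχ2 using h1
  obtain ⟨E, hE, hE'⟩ := hs.cont h
  obtain ⟨c, hc, hcχ⟩ := Pool.Agent.Y655.PS.resolvent (⊤ : Subgroup (κ ≃ₐ[K] κ)) χ
    (fun σ _ h => by
      have := hχ1 σ
      rw [h, zero_pow hℓ0] at this
      exact zero_ne_one this)
    (fun σ _ σ' _ => by
      have e1 : s (σ * σ') h = s σ (s σ' h) := by rw [map_mul]; rfl
      rw [hχ2, hχ2 σ', map_mul, hs.const, hμ σ _ (hχ1 σ'), hχ2 σ, ← mul_assoc, ← map_mul] at e1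
      rw [(algebraMap κ M).injective (mul_right_cancel₀ hh0 e1), mul_comm])
    (fun σ _ σ' _ => hμ σ _ (hχ1 σ')) E (fun σ hσ _ => by
      have h3 := hE' σ hσ
      rw [hχ2] at h3
      have h4 : algebraMap κ M (χ σ) * h = algebraMap κ M 1 * h := by rw [h3, map_one, one_mul]
      exact (algebraMap κ M).injective (mul_right_cancel₀ hh0 h4))
  have hcM : algebraMap κ M c ≠ 0 := (map_ne_zero_iff _ (algebraMap κ M).injective).2 hc
  obtain ⟨g, hg⟩ := hφ.surj (h / algebraMap κ M c) (fun σ => by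
    have hχ0 : algebraMap κ M (χ σ) ≠ 0 := by
      refine (map_ne_zero_iff _ (algebraMap κ M).injective).2 fun h3 => ?_
      have := hχ1 σ
      rw [h3, zero_pow hℓ0] at this
      exact zero_ne_one this
    rw [map_div₀, hs.const, hcχ σ trivial, hχ2, map_mul, mul_div_mul_left _ _ hχ0])
  obtain ⟨a, ha⟩ : ∃ a : K, algebraMap K κ a = c ^ ℓ := by
    have h1 : c ^ ℓ ∈ (⊥ : IntermediateField K κ) := by
      rw [InfiniteGalois.mem_bot_iff_fixed]
      intro σ
      rw [map_pow, hcχ σ trivial, mul_pow, hχ1, one_mul]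
    exact IntermediateField.mem_bot.1 h1
  refine ⟨a, ?_, g, ?_⟩
  · rintro rfl
    rw [map_zero] at ha
    exact pow_ne_zero ℓ hc ha.symm
  · apply φ.injective
    rw [map_mul, map_pow, hφ.const, ha, hg, map_pow, ← mul_pow, mul_div_cancel₀ _ hcM, hh]

/-- valuations of `L` above the primes outside `T`, where Kummer classes are unramified -/
def DatT (ℓ : ℕ) (T : Set (HeightOneSpectrum (𝓞 K))) (L : Type) [Field L] [Algebra K L] : Prop :=
  ∀ v : HeightOneSpectrum (𝓞 K), v ∉ T → ∃ O : ValuationSubring L,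
    (∀ a : K, v.valuation K a = 1 → O.valuation (algebraMap K L a) = 1) ∧
    ∀ (c : K) (g t : L), c ≠ 0 → g ≠ 0 → t ≠ 0 →
      O.valuation (algebraMap K L c * g ^ ℓ) = O.valuation t ^ ℓ →
      ∃ τ : K, v.valuation K c = v.valuation K τ ^ ℓ

/-- the Gauss valuations -/
theorem datT (hC : Cov ℓ κ R M x B Y) {T : Set (HeightOneSpectrum (𝓞 K))}
    (hT : ∀ v, v ∉ T → (ℓ : 𝓞 K) ∉ v.asIdeal)
    (hGood : ∀ v, v ∉ T → ∀ V : ValuationSubring κ, Above v V → Good V B) {δ : κ} (hδ0 : δ ≠ 0)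
    (hδ : ∀ v, v ∉ T → ∀ V : ValuationSubring κ, Above v V →
      ∀ σ : κ ≃ₐ[K] κ, Ine V σ → σ δ = δ)
    (hs : Sec K κ R M x Y δ s) (hφ : Fx (κ := κ) s φ) : DatT ℓ T L := by
  intro v hv
  have : Algebra.IsAlgebraic K κ := IsAlgClosure.isAlgebraic
  have : IsAlgClosed κ := IsAlgClosure.isAlgClosed K
  have : CharZero κ := charZero_of_injective_algebraMap (algebraMap K κ).injective
  have hℓ0 : ℓ ≠ 0 := hp.out.ne_zero
  have hℓv := hT v hv
  obtain ⟨V, hV⟩ := exists_above (K := K) κ v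
  obtain ⟨hl, -, O, hO, hu, hI⟩ := hV.wgt hℓv hC (hGood v hv V hV)
  have hI' := hI δ hδ0 (hδ v hv V hV) s hs
  refine ⟨O.comap φ, fun a ha => ?_, fun c g t hc hg ht hval => ?_⟩
  · rw [isU_comap, hφ.const, hO.isU, hV.isU, ha]
  · obtain ⟨α, hα⟩ := IsAlgClosed.exists_pow_nat_eq (algebraMap K κ c) hp.out.pos
    have hcκ : algebraMap K κ c ≠ 0 := (_root_.map_ne_zero _).2 hc
    have hα0 : α ≠ 0 := by
      rintro rfl
      rw [zero_pow hℓ0] at hα
      exact hcκ hα.symm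
    have hαM : algebraMap κ M α ≠ 0 := (map_ne_zero_iff _ (algebraMap κ M).injective).2 hα0
    have hU : IsU O (algebraMap κ M α * φ (g / t)) := by
      refine isU_of_pow hp.out.pos ?_
      have h1 := isU_of_val φ O ht hval
      have h2 : (algebraMap κ M α * φ (g / t)) ^ ℓ = φ (algebraMap K L c * g ^ ℓ / t ^ ℓ) := by
        rw [mul_pow, ← map_pow, hα, ← hφ.const, ← map_pow, ← map_mul, div_pow, mul_div_assoc]
      rw [h2]
      exact h1
    have hfix : ∀ σ : κ ≃ₐ[K] κ, Ine V σ → σ α = α := by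
      intro σ hσ
      have h1 := hI' σ hσ _ hU.2.1
      have h2 : s σ (algebraMap κ M α * φ (g / t)) - algebraMap κ M α * φ (g / t) =
          (algebraMap κ M α * φ (g / t)) * algebraMap κ M (σ α / α - 1) := by
        rw [map_mul, hs.const, hφ.fix, map_sub (algebraMap κ M), map_div₀ (algebraMap κ M), map_one]
        field_simp
      rw [h2] at h1
      have h3 := non_of_isU_mul hU h1
      rw [hO.nonunit] at h3
      have h4 : (σ α / α) ^ ℓ = 1 := by
        rw [div_pow, ← map_pow, hα, σ.commutes, div_self hcκ]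
      have h5 := Pool.Agent.Y748.PS.rou_eq_one hl h4 h3
      exact (div_eq_one_iff_eq hα0).1 h5
    exact hV.pow hℓv hα0 hfix hα.symm

end Pool.Agent.Helper786_Ell
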