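import Pool.Agent.Helper786_Ell.Two
import Pool.Agent.Helper786_Ell.KumD
import Pool.Agent.Y158.GR.PlcL

/-!
# Descent on the curve `v² = u³ - u` in the fixed field of a section
-/

set_option autoImplicit false
set_option linter.all false

open Polynomial IsDedekindDomain NumberField

namespace Pool.Agent.Helper786_Ell

open Pool.Agent.TH954 Pool.Agent.Helper786_Rig

/-- the valuations of the factors are even -/
theorem val_sq {Λ : Type} [Field Λ] (O : ValuationSubring Λ) {u v e e' e'' : Λ}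
    (h : v ^ 2 = (u - e) * (u - e') * (u - e'')) (hv : v ≠ 0) (he : e ∈ O) (he' : e' ∈ O)
    (he'' : e'' ∈ O) (h1 : O.valuation (e - e') = 1) (h2 : O.valuation (e - e'') = 1) :
    ∃ t, t ≠ 0 ∧ O.valuation (u - e) = O.valuation t ^ 2 := by
  by_cases hu : u ∈ O
  · have hm := (O.valuation_le_one_iff _).2 (sub_mem hu he)
    rcases lt_or_eq_of_le hm with h3 | h3
    · refine ⟨v, hv, ?_⟩
      have h4 : O.valuation (u - e') = 1 := by
        have h5 : u - e' = (e - e') + (u - e) := by ring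
        rw [h5, Valuation.map_add_eq_of_lt_left]
        · exact h1
        · rw [h1]; exact h3
      have h6 : O.valuation (u - e'') = 1 := by
        have h5 : u - e'' = (e - e'') + (u - e) := by ring
        rw [h5, Valuation.map_add_eq_of_lt_left]
        · exact h2
        · rw [h2]; exact h3
      rw [← map_pow, h, map_mul, map_mul, h4, h6, mul_one, mul_one]
    · exact ⟨1, one_ne_zero, by rw [h3, map_one, one_pow]⟩
  · have h3 : 1 < O.valuation u := not_le.1 (mt (O.valuation_le_one_iff u).1 hu)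
    have hu0 : u ≠ 0 := by
      rintro rfl
      exact hu (zero_mem _)
    have h4 : ∀ e ∈ O, O.valuation (u - e) = O.valuation u := by
      intro e he
      have h5 : O.valuation e < O.valuation u :=
        lt_of_le_of_lt ((O.valuation_le_one_iff _).2 he) h3
      exact Valuation.map_sub_eq_of_lt_left _ h5
    refine ⟨v / u, div_ne_zero hv hu0, ?_⟩
    have h6 : O.valuation u ≠ 0 := (Valuation.ne_zero_iff _).2 hu0
    rw [map_div₀, div_pow, ← map_pow, h, map_mul, map_mul, h4 e he, h4 e' he', h4 e'' he'']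
    field_simp

section desc

variable {K Λ : Type} [Field K] [NumberField K] [Field Λ] [Algebra K Λ]

/-- the primes above `n` -/
def PAt (K : Type) [Field K] [NumberField K] (n : ℕ) : Set (HeightOneSpectrum (𝓞 K)) :=
  {v | (n : 𝓞 K) ∈ v.asIdeal}

theorem val_nat {n : ℕ} {v : HeightOneSpectrum (𝓞 K)} (h : v ∉ PAt K n) :
    v.valuation K (n : K) = 1 := by
  rw [← map_natCast (algebraMap (𝓞 K) K) n, v.valuation_of_algebraMap, v.intValuation_eq_one_iff]
  exact h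

theorem val_int {n : ℕ} {v : HeightOneSpectrum (𝓞 K)} (h : v ∉ PAt K n) {z : K}
    (hz : z = n ∨ z = -n) : v.valuation K z = 1 := by
  rcases hz with rfl | rfl
  · exact val_nat h
  · rw [Valuation.map_neg]
    exact val_nat h

theorem val_diff {v : HeightOneSpectrum (𝓞 K)} (h : v ∉ PAt K 2) {z : K}
    (hz : z = 1 ∨ z = -1 ∨ z = 2 ∨ z = -2) : v.valuation K z = 1 := by
  rcases hz with rfl | rfl | rfl | rfl
  · exact map_one _
  · rw [Valuation.map_neg, map_one]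
  · exact val_int h (Or.inl (by norm_num))
  · exact val_int h (Or.inr (by norm_num))

/-- the factors of a square, up to squares -/
theorem factors (hkum : Pool.Agent.Y158.KL.Kum 2 K Λ) (hdat : DatT 2 (PAt K 2) Λ) {u v : Λ}
    (hv : v ≠ 0) {e e' e'' : K} (he : e = 0 ∨ e = 1 ∨ e = -1) (he' : e' = 0 ∨ e' = 1 ∨ e' = -1)
    (he'' : e'' = 0 ∨ e'' = 1 ∨ e'' = -1)
    (h1 : e - e' = 1 ∨ e - e' = -1 ∨ e - e' = 2 ∨ e - e' = -2)
    (h2 : e - e'' = 1 ∨ e - e'' = -1 ∨ e - e'' = 2 ∨ e - e'' = -2)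
    (h : v ^ 2 = (u - algebraMap K Λ e) * (u - algebraMap K Λ e') * (u - algebraMap K Λ e'')) :
    ∃ a : K, a ≠ 0 ∧ DvdOutside 2 (PAt K 2) a ∧
      ∃ g : Λ, u - algebraMap K Λ e = algebraMap K Λ a * g ^ 2 := by
  have hch : CharZero K := inferInstance
  have hchΛ : CharZero Λ := charZero_of_injective_algebraMap (algebraMap K Λ).injective
  have hmem : ∀ (O : ValuationSubring Λ) (c : K), (c = 0 ∨ c = 1 ∨ c = -1) →
      algebraMap K Λ c ∈ O := by
    rintro O c (rfl | rfl | rfl)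
    · rw [map_zero]; exact zero_mem _
    · rw [map_one]; exact one_mem _
    · rw [map_neg, map_one]; exact neg_mem (one_mem _)
  have hne : u - algebraMap K Λ e ≠ 0 := by
    intro h0
    rw [h0, zero_mul, zero_mul] at h
    exact hv (pow_eq_zero_iff two_ne_zero |>.1 h)
  have hcne : ∀ c : K, (c = 1 ∨ c = -1 ∨ c = 2 ∨ c = -2) → c ≠ 0 := by
    rintro c (rfl | rfl | rfl | rfl) <;> norm_num
  obtain ⟨a, ha, g, hg⟩ := hkum (u - algebraMap K Λ e) hne (fun O hO => by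
    refine val_sq O h hv (hmem O e he) (hmem O e' he') (hmem O e'' he'') ?_ ?_
    · rw [← map_sub]
      exact Pool.Agent.Y158.KL.triv_val hO (hcne _ h1)
    · rw [← map_sub]
      exact Pool.Agent.Y158.KL.triv_val hO (hcne _ h2))
  refine ⟨a, ha, fun v' hv' => ?_, g, hg⟩
  obtain ⟨O, hO1, hO2⟩ := hdat v' hv'
  obtain ⟨t, ht, ht'⟩ := val_sq O h hv (hmem O e he) (hmem O e' he') (hmem O e'' he'') (by
    rw [← map_sub]
    exact hO1 _ (val_diff hv' h1)) (by
    rw [← map_sub]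
    exact hO1 _ (val_diff hv' h2))
  refine hO2 a g t ha ?_ ht ?_
  · rintro rfl
    rw [zero_pow two_ne_zero, mul_zero] at hg
    exact hne hg
  · rw [← hg]
    exact ht'

variable [Algebra K ℚ_[2]]

theorem val_div {pl : Plc K Λ ℚ_[2]} {x y : Λ} {a b : ℚ_[2]} (h : pl.val x a) (h' : pl.val y b)
    (hb : b ≠ 0) : pl.val (x / y) (a / b) := by
  rw [div_eq_mul_inv, div_eq_mul_inv]
  exact h.mul (h'.inv hb)

theorem val_ofNat {pl : Plc K Λ ℚ_[2]} (n : ℕ) : pl.val (n : Λ) (n : ℚ_[2]) :=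
  Plc.val_natCast n

/-- **the descent** -/
theorem desc (hkum : Pool.Agent.Y158.KL.Kum 2 K Λ) (hdat : DatT 2 (PAt K 2) Λ)
    (pl : Plc K Λ ℚ_[2]) (hL : LocPow 2 (PAt K 10) ℚ_[2])
    (h5 : ¬ DvdOutside 2 (PAt K 2) (5 : K)) (n : ℕ) :
    ∀ u v : Λ, v ^ 2 = u ^ 3 - u → ∀ a : ℚ_[2], pl.val u a → 1 < ‖a‖ → ¬ ‖a‖ < 2 ^ n := by
  have hch : CharZero K := inferInstance
  have hchΛ : CharZero Λ := charZero_of_injective_algebraMap (algebraMap K Λ).injective
  induction n with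
  | zero =>
    intro u v _ a _ h1 h2
    rw [pow_zero] at h2
    exact lt_asymm h1 h2
  | succ n ih =>
    intro u v huv a hua ha hlt
    have ha0 : a ≠ 0 := by
      rintro rfl
      rw [norm_zero] at ha
      linarith
    have ha1 : a - 1 ≠ 0 := by
      intro h0
      rw [sub_eq_zero.1 h0, norm_one] at ha
      exact lt_irrefl _ ha
    have ha2 : a + 1 ≠ 0 := by
      intro h0
      rw [eq_neg_of_add_eq_zero_left h0, norm_neg, norm_one] at ha
      exact lt_irrefl _ ha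
    -- the value of `v`
    have hvW : v ∈ pl.W := by
      apply Plc.mem_of_pow_mem (n := 2) two_pos
      rw [huv]
      exact sub_mem (pow_mem hua.mem _) hua.mem
    obtain ⟨b, hb⟩ := Plc.val_of_mem hvW
    have hab : b ^ 2 = a ^ 3 - a := by
      refine (hb.pow 2).unique ?_
      rw [huv]
      exact (hua.pow 3).sub hua
    have hv : v ≠ 0 := by
      rintro rfl
      have h1 : b = 0 := hb.unique Plc.val_zero
      rw [h1, zero_pow two_ne_zero] at hab
      have h2 : a * ((a - 1) * (a + 1)) = 0 := by linear_combination -hab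
      rcases mul_eq_zero.1 h2 with h3 | h3
      · exact ha0 h3
      · rcases mul_eq_zero.1 h3 with h4 | h4
        · exact ha1 h4
        · exact ha2 h4
    obtain ⟨a₀, ha₀, hd₀, g₀, hg₀⟩ := factors (u := u) (v := v) (e := 0) (e' := 1) (e'' := -1)
      hkum hdat hv (by simp) (by simp) (by simp) (by norm_num) (by norm_num) (by
        rw [huv, map_zero, map_one, map_neg, map_one]; ring)
    obtain ⟨a₁, ha₁, hd₁, g₁, hg₁⟩ := factors (u := u) (v := v) (e := 1) (e' := 0) (e'' := -1)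
      hkum hdat hv (by simp) (by simp) (by simp) (by norm_num) (by norm_num) (by
        rw [huv, map_zero, map_one, map_neg, map_one]; ring)
    obtain ⟨a₂, ha₂, hd₂, g₂, hg₂⟩ := factors (u := u) (v := v) (e := -1) (e' := 0) (e'' := 1)
      hkum hdat hv (by simp) (by simp) (by simp) (by norm_num) (by norm_num) (by
        rw [huv, map_zero, map_one, map_neg, map_one]; ring)
    rw [map_zero, sub_zero] at hg₀
    rw [map_one] at hg₁
    rw [map_neg, map_one, sub_neg_eq_add] at hg₂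
    -- the values of the `g`
    have hval : ∀ (c : K) (g w : Λ) (α : ℚ_[2]), c ≠ 0 → w = algebraMap K Λ c * g ^ 2 →
        pl.val w α → ∃ γ : ℚ_[2], pl.val g γ ∧ algebraMap K ℚ_[2] c * γ ^ 2 = α := by
      intro c g w α hc hw hα
      have hcΛ : algebraMap K Λ c ≠ 0 := (_root_.map_ne_zero _).2 hc
      have hgW : g ∈ pl.W := by
        apply Plc.mem_of_pow_mem (n := 2) two_pos
        have h1 : g ^ 2 = algebraMap K Λ c⁻¹ * w := by
          rw [hw, ← mul_assoc, ← map_mul, inv_mul_cancel₀ hc, map_one, one_mul]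
        rw [h1]
        exact mul_mem (pl.alg_mem _) hα.mem
      obtain ⟨γ, hγ⟩ := Plc.val_of_mem hgW
      refine ⟨γ, hγ, ?_⟩
      have h2 := (Plc.val_alg (pl := pl) c).mul (hγ.pow 2)
      rw [← hw] at h2
      exact h2.unique hα
    obtain ⟨γ₀, hγ₀, e₀⟩ := hval a₀ g₀ u a ha₀ hg₀ hua
    obtain ⟨γ₁, hγ₁, e₁⟩ := hval a₁ g₁ (u - 1) (a - 1) ha₁ hg₁ (hua.sub Plc.val_one)
    obtain ⟨γ₂, hγ₂, e₂⟩ := hval a₂ g₂ (u + 1) (a + 1) ha₂ hg₂ (hua.add Plc.val_one)
    have hsq : ∀ (c : K) (γ α w : ℚ_[2]), DvdOutside 2 (PAt K 10) c → c ≠ 0 → α ≠ 0 →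
        algebraMap K ℚ_[2] c * γ ^ 2 = α → w ^ 2 = α → ∃ β : K, β ^ 2 = c := by
      intro c γ α w hc hc0 hα h1 h2
      refine hL c hc0 hc ⟨w / γ, ?_⟩
      have hγ : γ ≠ 0 := by
        rintro rfl
        rw [zero_pow two_ne_zero, mul_zero] at h1
        exact hα h1.symm
      rw [div_pow, h2, ← h1, mul_div_assoc, div_self (pow_ne_zero _ hγ), mul_one]
    have h10 : ∀ v : HeightOneSpectrum (𝓞 K), v ∉ PAt K 10 → v ∉ PAt K 2 := by
      intro v hv h
      apply hv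
      have h1 : ((10 : ℕ) : 𝓞 K) = (5 : 𝓞 K) * ((2 : ℕ) : 𝓞 K) := by push_cast; norm_num
      change ((10 : ℕ) : 𝓞 K) ∈ v.asIdeal
      rw [h1]
      exact Ideal.mul_mem_left _ _ h
    have hmono : ∀ c : K, DvdOutside 2 (PAt K 2) c → DvdOutside 2 (PAt K 10) c :=
      fun c hc v hv => hc v (h10 v hv)
    rcases two_big hab ha with ⟨w₀, w₁, w₂, hw₀, hw₁, hw₂⟩ | ⟨w₀, w₁, hw₀, hw₁⟩
    swap
    · -- the class of five
      exfalso
      have hd5 : DvdOutside 2 (PAt K 10) (5 * a₁) := by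
        intro v hv
        obtain ⟨t, ht⟩ := hmono _ hd₁ v hv
        refine ⟨t, ?_⟩
        have h1 : v ∉ PAt K 5 := by
          intro h
          apply hv
          have h1 : ((10 : ℕ) : 𝓞 K) = (2 : 𝓞 K) * ((5 : ℕ) : 𝓞 K) := by push_cast; norm_num
          change ((10 : ℕ) : 𝓞 K) ∈ v.asIdeal
          rw [h1]
          exact Ideal.mul_mem_left _ _ h
        have h2 := val_nat h1
        rw [map_mul, ht]
        have h3 : v.valuation K (5 : K) = 1 := by exact_mod_cast h2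
        rw [h3, one_mul]
      have h50 : (5 : K) * a₁ ≠ 0 := mul_ne_zero (by norm_num) ha₁
      obtain ⟨β, hβ⟩ := hsq (5 * a₁) γ₁ (5 * (a - 1)) w₁ hd5 h50
        (mul_ne_zero (by norm_num) ha1) (by
          rw [map_mul, mul_assoc, e₁]
          congr 1
          exact map_ofNat _ _) hw₁
      apply h5
      intro v hv
      obtain ⟨t, ht⟩ := hd₁ v hv
      refine ⟨β / t, ?_⟩
      have h6 : (5 : K) = β ^ 2 / a₁ := by rw [hβ, mul_div_cancel_right₀ _ ha₁]
      rw [h6, map_div₀, map_pow, ht, map_div₀, div_pow]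
    obtain ⟨β₀, hβ₀⟩ := hsq a₀ γ₀ a w₀ (hmono _ hd₀) ha₀ ha0 e₀ hw₀
    obtain ⟨β₁, hβ₁⟩ := hsq a₁ γ₁ (a - 1) w₁ (hmono _ hd₁) ha₁ ha1 e₁ hw₁
    obtain ⟨β₂, hβ₂⟩ := hsq a₂ γ₂ (a + 1) w₂ (hmono _ hd₂) ha₂ ha2 e₂ hw₂
    obtain ⟨r, hr, ρ, hrρ⟩ : ∃ r : Λ, r ^ 2 = u ∧ ∃ ρ, pl.val r ρ :=
      ⟨algebraMap K Λ β₀ * g₀, by rw [mul_pow, ← map_pow, hβ₀, hg₀], _,
        (Plc.val_alg (pl := pl) β₀).mul hγ₀⟩
    obtain ⟨r₁, hr₁, ρ₁, hrρ₁⟩ : ∃ r : Λ, r ^ 2 = u - 1 ∧ ∃ ρ, pl.val r ρ :=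
      ⟨algebraMap K Λ β₁ * g₁, by rw [mul_pow, ← map_pow, hβ₁, hg₁], _,
        (Plc.val_alg (pl := pl) β₁).mul hγ₁⟩
    obtain ⟨r₂, hr₂, ρ₂, hrρ₂⟩ : ∃ r : Λ, r ^ 2 = u + 1 ∧ ∃ ρ, pl.val r ρ :=
      ⟨algebraMap K Λ β₂ * g₂, by rw [mul_pow, ← map_pow, hβ₂, hg₂], _,
        (Plc.val_alg (pl := pl) β₂).mul hγ₂⟩
    have hone1 : (r - r₁) * (r + r₁) = 1 := by linear_combination hr - hr₁
    have hone2 : (r₂ - r) * (r₂ + r) = 1 := by linear_combination hr₂ - hr
    obtain ⟨u', hu'⟩ : ∃ u', u' = (r + r₁) * (r + r₂) := ⟨_, rfl⟩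
    obtain ⟨v', hv'⟩ : ∃ v', v' = (r + r₁) * (r₁ + r₂) * (r₂ + r) := ⟨_, rfl⟩
    have hm1 : u' - 1 = (r + r₁) * (r₁ + r₂) := by
      rw [hu']; linear_combination hone1
    have hm2 : u' + 1 = (r + r₂) * (r₁ + r₂) := by
      rw [hu']; linear_combination -hone2
    have huv' : v' ^ 2 = u' ^ 3 - u' := by
      have h1 : u' ^ 3 - u' = u' * (u' - 1) * (u' + 1) := by ring
      rw [h1, hm1, hm2, hu', hv']
      ring
    have hdbl0 : u' ^ 2 + 1 = 2 * r * v' := by
      rw [hu', hv']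
      linear_combination -((r₂ - r) * (r₂ + r)) * hone1 - hone2
    have hdbl : u * (4 * (u' ^ 3 - u')) = (u' ^ 2 + 1) ^ 2 := by
      rw [hdbl0, ← huv', ← hr]
      ring
    have huc : ∃ c, pl.val u' c := by
      rw [hu']
      exact ⟨_, (hrρ.add hrρ₁).mul (hrρ.add hrρ₂)⟩
    have hvc : ∃ c, pl.val v' c := by
      rw [hv']
      exact ⟨_, ((hrρ.add hrρ₁).mul (hrρ₁.add hrρ₂)).mul (hrρ₂.add hrρ)⟩
    obtain ⟨c, hc⟩ := huc
    obtain ⟨d, hd⟩ := hvc
    have hcd : a * (4 * (c ^ 3 - c)) = (c ^ 2 + 1) ^ 2 := by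
      have h4 : pl.val (4 : Λ) (4 : ℚ_[2]) := by
        have := val_ofNat (pl := pl) 4
        exact_mod_cast this
      have h1 := hua.mul (h4.mul ((hc.pow 3).sub hc))
      have h2 := ((hc.pow 2).add Plc.val_one).pow 2
      rw [hdbl] at h1
      exact h1.unique h2
    have hc0 : c ≠ 0 := by
      rintro rfl
      norm_num at hcd
    have hc1 : c ≠ 1 := by
      rintro rfl
      norm_num at hcd
    have hc2 : c ≠ -1 := by
      rintro rfl
      norm_num at hcd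
    have hu0 : u' ≠ 0 := by
      rintro rfl
      exact hc0 (hc.unique Plc.val_zero)
    have hu1 : u' - 1 ≠ 0 := by
      intro h0
      have h1 := hc.sub Plc.val_one
      rw [h0] at h1
      exact hc1 (sub_eq_zero.1 (h1.unique Plc.val_zero))
    have hu2 : 1 + u' ≠ 0 := by
      intro h0
      have h1 := Plc.val_one.add hc
      rw [h0] at h1
      have h2 : 1 + c = 0 := h1.unique Plc.val_zero
      exact hc2 (by linear_combination h2)
    have hcm : c - 1 ≠ 0 := sub_ne_zero.2 hc1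
    have hcp : 1 + c ≠ 0 := by
      intro h0
      exact hc2 (by linear_combination h0)
    have hn : ∀ x : ℚ_[2], 4 * ‖x‖ ≤ ‖a‖ → ‖x‖ < 2 ^ n := by
      intro x hx
      rw [pow_succ] at hlt
      have : (0 : ℝ) < 2 ^ n := by positivity
      linarith
    rcases new_pt hcd hc0 hc1 hc2 with ⟨h1, h2⟩ | ⟨h1, h2⟩ | ⟨h1, h2⟩ | ⟨h1, h2⟩
    · exact ih u' v' huv' c hc h1 (hn _ h2)
    · refine ih (-1 / u') (v' / u' ^ 2) ?_ _ ?_ h1 (hn _ h2)
      · rw [div_pow, huv']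
        field_simp
        ring
      · have h3 := (Plc.val_zero (pl := pl)).sub Plc.val_one
        rw [zero_sub, zero_sub] at h3
        exact val_div h3 hc hc0
    · refine ih ((u' + 1) / (u' - 1)) (2 * v' / (u' - 1) ^ 2) ?_ _ ?_ h1 (hn _ h2)
      · rw [div_pow, mul_pow, huv']
        field_simp
        ring
      · exact val_div (hc.add Plc.val_one) (hc.sub Plc.val_one) hcm
    · refine ih ((1 - u') / (1 + u')) (2 * v' / (1 + u') ^ 2) ?_ _ ?_ h1 (hn _ h2)
      · rw [div_pow, mul_pow, huv']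
        field_simp
        ring
      · exact val_div (Plc.val_one.sub hc) (Plc.val_one.add hc) hcp

/-- **the values of the points of the curve `Y² = X⁴ - 1`** -/
theorem quartic (hkum : Pool.Agent.Y158.KL.Kum 2 K Λ) (hdat : DatT 2 (PAt K 2) Λ)
    (pl : Plc K Λ ℚ_[2]) (hL : LocPow 2 (PAt K 10) ℚ_[2])
    (h5 : ¬ DvdOutside 2 (PAt K 2) (5 : K)) {X Y : Λ} (h : Y ^ 2 = X ^ 4 - 1) :
    pl.val X 1 ∨ pl.val X (-1) ∨ pl.val X⁻¹ 0 := by
  have hchΛ : CharZero Λ := charZero_of_injective_algebraMap (algebraMap K Λ).injective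
  by_cases hX : X ∈ pl.W
  swap
  · exact Or.inr (Or.inr (Plc.val_inv_of_notMem hX))
  have hYW : Y ∈ pl.W := by
    apply Plc.mem_of_pow_mem (n := 2) two_pos
    rw [h]
    exact sub_mem (pow_mem hX _) (one_mem _)
  obtain ⟨ξ, hξ⟩ := Plc.val_of_mem hX
  obtain ⟨η, hη⟩ := Plc.val_of_mem hYW
  have hξη : η ^ 2 = ξ ^ 4 - 1 := by
    refine (hη.pow 2).unique ?_
    rw [h]
    exact (hξ.pow 4).sub Plc.val_one
  by_cases h1 : ξ = 1
  · left; rw [← h1]; exact hξ
  by_cases h2 : ξ = -1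
  · right; left; rw [← h2]; exact hξ
  exfalso
  have huv : (X * Y) ^ 2 = (X ^ 2) ^ 3 - X ^ 2 := by
    rw [mul_pow, h]; ring
  have hex : ∀ x : ℝ, ∃ n : ℕ, x < 2 ^ n := fun x => pow_unbounded_of_one_lt x (by norm_num)
  rcases start hξη h1 h2 with h3 | h3
  · obtain ⟨n, hn⟩ := hex ‖ξ ^ 2‖
    exact desc hkum hdat pl hL h5 n _ _ huv _ (hξ.pow 2) h3 hn
  · obtain ⟨n, hn⟩ := hex ‖(ξ ^ 2 + 1) / (ξ ^ 2 - 1)‖
    have hm : ξ ^ 2 - 1 ≠ 0 := by
      intro h0
      rw [h0, div_zero, norm_zero] at h3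
      linarith
    have hXm : X ^ 2 - 1 ≠ 0 := by
      intro h0
      have h4 := (hξ.pow 2).sub Plc.val_one
      rw [h0] at h4
      exact hm (h4.unique Plc.val_zero)
    refine desc hkum hdat pl hL h5 n ((X ^ 2 + 1) / (X ^ 2 - 1)) (2 * (X * Y) / (X ^ 2 - 1) ^ 2)
      ?_ _ (val_div ((hξ.pow 2).add Plc.val_one) ((hξ.pow 2).sub Plc.val_one) hm) h3 hn
    rw [div_pow, mul_pow, huv]
    field_simp
    ring

end desc

end Pool.Agent.Helper786_Ell
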