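import Pool.Agent.Helper786_Ell.Cur
import Pool.Agent.Helper786_Rig.Fin2
import Pool.Agent.TH954.SFinV

/-!
# Sections for the curves `y² = e² (P(x)⁴ - 1)` which are given at `2` by a local point
-/

set_option autoImplicit false
set_option linter.all false

open Polynomial FF Pool.Agent.Y157.PS Pool.Agent.Y158.GR Pool.Agent.TH954 IsDedekindDomain
  NumberField

namespace Pool.Agent.Helper786_Ell

open Pool.Agent.Helper786_Rig

theorem val_zero_non {K N C : Type} [Field K] [Field N] [Field C] [Algebra K N] [Algebra K C]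
    {p : Plc K N C} {z : N} (hz : p.val z 0) : z ∈ p.W.nonunits := by
  rw [nonunits_iff]
  refine ⟨hz.mem, ?_⟩
  by_cases h0 : z = 0
  · exact Or.inl h0
  · right
    intro h1
    obtain ⟨c, hc1⟩ := Plc.val_of_mem h1
    have h2 := hz.mul hc1
    rw [mul_inv_cancel₀ h0, zero_mul] at h2
    exact zero_ne_one (h2.unique Plc.val_one)

theorem alg_sub' {K F : Type} [Field K] [Field F] [Algebra K F] {x : F}
    (hFx : Algebra.IsAlgebraic (IntermediateField.adjoin K {x}) F) (F₀ : IntermediateField K F)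
    (h : IsAlgebraic F₀ x) : Algebra.IsAlgebraic F₀ F := by
  have hxE : x ∈ algebraicClosure F₀ F := by
    rw [mem_algebraicClosure_iff]
    exact h
  have hle : IntermediateField.adjoin K {x} ≤ (algebraicClosure F₀ F).restrictScalars K := by
    rw [IntermediateField.adjoin_le_iff]
    intro z hz
    rw [Set.mem_singleton_iff] at hz
    rw [hz]
    exact hxE
  refine ⟨fun z => ?_⟩
  have h2 : IsAlgebraic (IntermediateField.adjoin K {x}) z := hFx.isAlgebraic z
  have h3 : IsAlgebraic (algebraicClosure F₀ F) z := by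
    obtain ⟨q, hq, hqz⟩ := h2
    let i : IntermediateField.adjoin K {x} →+* algebraicClosure F₀ F :=
      (algebraMap (IntermediateField.adjoin K {x}) F).codRestrict
        (algebraicClosure F₀ F).toSubfield (fun w => hle w.2)
    refine ⟨q.map i, (Polynomial.map_ne_zero_iff i.injective).2 hq, ?_⟩
    rw [aeval_def, eval₂_map]
    exact hqz
  exact h3.restrictScalars F₀

/-- the value of a polynomial at a pole of `x` -/
theorem val_pole {K N C : Type} [Field K] [Field N] [Field C] [Algebra K N] [Algebra K C]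
    {p : Plc K N C} {x : N} (hx0 : x ≠ 0) (hx : p.val x⁻¹ 0) (P : K[X]) :
    p.val (aeval x P / x ^ P.natDegree) (algebraMap K C P.leadingCoeff) := by
  have h1 := Plc.val_aeval hx P.reverse
  have h2 : aeval x⁻¹ P.reverse = aeval x P / x ^ P.natDegree := by
    letI : Invertible x := invertibleOfNonzero hx0
    have h3 := eval₂_reverse_mul_pow (algebraMap K N) x P
    rw [eq_div_iff (pow_ne_zero _ hx0)]
    have h4 : (⅟x : N) = x⁻¹ := invOf_eq_inv x
    rw [h4] at h3
    exact h3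
  rw [h2] at h1
  have h3 : aeval (0 : C) P.reverse = algebraMap K C P.leadingCoeff := by
    rw [← coeff_zero_eq_aeval_zero', coeff_zero_reverse]
  rwa [h3] at h1

section fin

variable {K F Ω C : Type} [Field K] [NumberField K] [Field F] [Field Ω] [Algebra K F]
  [Algebra F Ω] [Algebra K Ω] [IsScalarTower K F Ω] [IsAlgClosed Ω] [Algebra.IsAlgebraic F Ω]
  [Field C] [Algebra K C] [Algebra K ℚ_[2]] [Algebra ℚ_[2] C] [IsScalarTower K ℚ_[2] C]
  [IsAlgClosure ℚ_[2] C]

/-- the point is above a point of the curve `Y² = X⁴ - 1` with `X = 1`, `-1` or `∞` -/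
theorem ellGen (hL : LocPow 2 (PAt K 10) ℚ_[2]) (h5 : ¬ DvdOutside 2 (PAt K 2) (5 : K))
    (f : K[X]) (hs : f.Separable) (hdvd : 2 ∣ f.natDegree) (h3 : 3 ≤ f.natDegree) (d : K)
    (hd : d ≠ 0) (x y : F) (hx : Transcendental K x) (hxy : algebraMap K F d * y ^ 2 = aeval x f)
    (hF : IntermediateField.adjoin K {x, y} = (⊤ : IntermediateField K F))
    (P : K[X]) (hP : P.natDegree ≠ 0) (Y : F) (hY : Y ^ 2 = aeval x P ^ 4 - 1)
    (N : IntermediateField F Ω) (hN : geomPro 2 K F Ω ≤ N)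
    (s : GalSection K F N (algebraicClosure K Ω)) (hj : ∀ z, ((s.j z : N) : Ω) = (z : Ω))
    (p : Plc K N C) (hp : s.GivenBy ℚ_[2] p) :
    p.val (algebraMap F N (aeval x P)) 1 ∨ p.val (algebraMap F N (aeval x P)) (-1) ∨
      p.val (algebraMap F N (aeval x P))⁻¹ 0 := by
  haveI hp2 : Fact (Nat.Prime 2) := ⟨Nat.prime_two⟩
  obtain ⟨X₁, hX₁⟩ : ∃ X₁ : F, X₁ = aeval x P := ⟨_, rfl⟩
  rw [← hX₁] at hY ⊢
  have hX₁t : Transcendental K X₁ := by
    rw [hX₁]
    refine hx.aeval P hP ?_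
    rw [mem_nonZeroDivisors_iff_ne_zero]
    intro h
    apply hP
    rw [leadingCoeff_eq_zero.1 h, natDegree_zero]
  obtain ⟨F₀, hF₀⟩ : ∃ F₀ : IntermediateField K F, F₀ = IntermediateField.adjoin K {X₁, Y} :=
    ⟨_, rfl⟩
  have hXm : X₁ ∈ F₀ := by
    rw [hF₀]; exact IntermediateField.subset_adjoin K _ (by simp)
  have hYm : Y ∈ F₀ := by
    rw [hF₀]; exact IntermediateField.subset_adjoin K _ (by simp)
  have hFx := alg_of_eqn two_pos f d hd x y hxy hF
  have hxalg : IsAlgebraic F₀ x := by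
    refine ⟨P.map (algebraMap K F₀) - Polynomial.C ⟨X₁, hXm⟩, ?_, ?_⟩
    · intro h
      apply hP
      have h1 := congrArg natDegree h
      rwa [natDegree_sub_C, natDegree_map, natDegree_zero] at h1
    · rw [map_sub, aeval_map_algebraMap, aeval_C, ← hX₁]
      exact sub_self _
  haveI hFF : Algebra.IsAlgebraic F₀ F := alg_sub' hFx F₀ hxalg
  haveI hFΩ : Algebra.IsAlgebraic F₀ Ω := Algebra.IsAlgebraic.trans F₀ F Ω
  have htop : IntermediateField.adjoin K {(⟨X₁, hXm⟩ : F₀), ⟨Y, hYm⟩} =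
      (⊤ : IntermediateField K F₀) := by
    apply IntermediateField.map_injective F₀.val
    rw [IntermediateField.adjoin_map, Set.image_pair, ← AlgHom.fieldRange_eq_map,
      IntermediateField.fieldRange_val]
    exact hF₀.symm
  have hx0 : Transcendental K (⟨X₁, hXm⟩ : F₀) := by
    rw [← transcendental_algebraMap_iff (R := K) (A := F) (algebraMap F₀ F).injective]
    exact hX₁t
  have hxy0 : (⟨Y, hYm⟩ : F₀) ^ 2 = (⟨X₁, hXm⟩ : F₀) ^ 4 - 1 := Subtype.ext hY
  have heq : algebraMap K F₀ 1 * (⟨Y, hYm⟩ : F₀) ^ 2 =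
      aeval (⟨X₁, hXm⟩ : F₀) (X ^ 4 - 1 : K[X]) := by
    rw [map_one, one_mul, map_sub, map_pow, aeval_X, map_one, hxy0]
  have halg : Algebra.IsAlgebraic (IntermediateField.adjoin K {(⟨X₁, hXm⟩ : F₀)}) F₀ :=
    alg_of_eqn two_pos (X ^ 4 - 1) 1 one_ne_zero (⟨X₁, hXm⟩ : F₀) ⟨Y, hYm⟩ heq htop
  haveI : IsAlgClosure F₀ Ω := ⟨inferInstance, inferInstance⟩
  obtain ⟨-, hst⟩ := a_inrt 2 K F₀ Ω (⟨X₁, hXm⟩ : F₀) hx0 halg
  have hmono := mono_geo (Ω := Ω) (ℓ := 2) F₀ (X ^ 4 - 1 : K[X]) (quartic_sep two_ne_zero)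
    (by rw [quartic_natDegree]; norm_num) (by rw [quartic_natDegree]; norm_num) 1 one_ne_zero
    (⟨X₁, hXm⟩ : F₀) ⟨Y, hYm⟩ hx0 heq htop f hs hdvd h3 d hd x y hx hxy hF
  have hN₀ : ∀ z ∈ geomPro 2 K F₀ Ω, z ∈ N := fun z hz => hN (hmono z hz)
  obtain ⟨s₀, p₀, hj₀, hp₀, hval⟩ := restrict_sec F₀ hst N hN₀ s hj p hp
  have hiF : ∀ z : F₀, (⟨((algebraMap F₀ (geomPro 2 K F₀ Ω) z : geomPro 2 K F₀ Ω) : Ω),
      hN₀ _ (algebraMap F₀ (geomPro 2 K F₀ Ω) z).2⟩ : N) = algebraMap F N (z : F) := fun z =>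
    Subtype.ext rfl
  rcases ellK hL h5 _ _ hx0 htop hxy0 s₀ hj₀ p₀ hp₀ with h | h | h
  · left
    rw [hval, hiF] at h
    exact h
  · right; left
    rw [hval, hiF] at h
    exact h
  · right; right
    rw [← map_inv₀, hval, hiF] at h
    have h1 : (((⟨X₁, hXm⟩ : F₀)⁻¹ : F₀) : F) = X₁⁻¹ := rfl
    rw [h1, map_inv₀] at h
    exact h

/-- **sections given by a local point at `2`** -/
theorem ellFin (hL : LocPow 2 (PAt K 10) ℚ_[2]) (h5 : ¬ DvdOutside 2 (PAt K 2) (5 : K))
    {P : K[X]} (hP : P.natDegree ≠ 0) {e : K} (he : e ≠ 0) (g : (𝓞 K)[X])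
    (hg : g.map (algebraMap (𝓞 K) K) = Polynomial.C (e ^ 2) * (P ^ 4 - 1))
    (hs : (g.map (algebraMap (𝓞 K) K)).Separable)
    (hgal : IsPGroup 2 (g.map (algebraMap (𝓞 K) K)).Gal)
    {T : Set (HeightOneSpectrum (𝓞 K))} (hT : T.Finite) (hgood : ∀ v, v ∉ T → GoodAt 2 g (1 : K) v)
    (hLT : LocPow 2 T ℚ_[2]) (x y : F) (hx : Transcendental K x)
    (hxy : y ^ 2 = aeval x (g.map (algebraMap (𝓞 K) K)))
    (hF : IntermediateField.adjoin K {x, y} = (⊤ : IntermediateField K F))
    (N : IntermediateField F Ω) (hN : geomPro 2 K F Ω ≤ N)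
    (s : GalSection K F N (algebraicClosure K Ω)) (hj : ∀ z, ((s.j z : N) : Ω) = (z : Ω))
    (p : Plc K N C) (hp : s.GivenBy ℚ_[2] p) :
    ((∃ c : K, (P.eval c = 1 ∨ P.eval c = -1) ∧ p.val (algebraMap F N x) (algebraMap K C c) ∧
        p.val (algebraMap F N y) 0) ∨ p.val (algebraMap F N x)⁻¹ 0) ∧
      ∀ σ, ∀ z : N, (z : Ω) ∈ geomPro 2 K F Ω → (s.s σ z ∈ p.W ↔ z ∈ p.W) := by
  classical
  haveI hp2 : Fact (Nat.Prime 2) := ⟨Nat.prime_two⟩
  have hac : IsAlgClosure K (algebraicClosure K Ω) := inferInstance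
  have hkb : IsAlgClosed (algebraicClosure K Ω) := hac.1
  have hnorm : Normal K (algebraicClosure K Ω) := IsAlgClosure.normal K _
  haveI : IsGalois K (algebraicClosure K Ω) := IsGalois.mk
  have hinj : Function.Injective (algebraMap (𝓞 K) K) := IsFractionRing.injective (𝓞 K) K
  have hζ : IsPrimitiveRoot (-1 : K) 2 := IsPrimitiveRoot.neg_one 0 (by norm_num)
  -- the degree
  obtain ⟨f, hf⟩ : ∃ f : K[X], f = g.map (algebraMap (𝓞 K) K) := ⟨_, rfl⟩
  have hdeg : g.natDegree = f.natDegree := by rw [hf, natDegree_map_eq_of_injective hinj]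
  have hP4 : (P ^ 4 - 1).natDegree = 4 * P.natDegree := by
    rw [← C_1, natDegree_sub_C, natDegree_pow]
  have hfdeg : f.natDegree = 4 * P.natDegree := by
    rw [hf, hg, natDegree_C_mul (pow_ne_zero _ he), hP4]
  have hgm : g.natDegree = 2 * (2 * P.natDegree) := by rw [hdeg, hfdeg]; ring
  have h3 : 3 ≤ g.natDegree := by rw [hdeg, hfdeg]; omega
  have hf0 : f ≠ 0 := by
    rintro h0
    rw [h0, natDegree_zero] at hdeg
    omega
  -- the functions
  have heF : algebraMap K F e ≠ 0 := (_root_.map_ne_zero _).2 he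
  have hfx : aeval x f = algebraMap K F e ^ 2 * (aeval x P ^ 4 - 1) := by
    rw [hf, hg, map_mul, aeval_C, map_sub, map_pow, map_pow, map_one]
  have hY : (y / algebraMap K F e) ^ 2 = aeval x P ^ 4 - 1 := by
    rw [div_pow, hxy, ← hf, hfx, mul_div_cancel_left₀ _ (pow_ne_zero _ heF)]
  have hxy1 : algebraMap K F 1 * y ^ 2 = aeval x f := by rw [map_one, one_mul, hxy, hf]
  have hgen := ellGen hL h5 f (by rw [hf]; exact hs) (by rw [hfdeg]; omega) (by rw [hfdeg]; omega) 1
    one_ne_zero x y hx hxy1 hF P hP (y / algebraMap K F e) hY N hN s hj p hp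
  haveI : IsScalarTower K F N := inferInstance
  have hKN : ∀ c : K, algebraMap F N (algebraMap K F c) = algebraMap K N c := fun c =>
    (IsScalarTower.algebraMap_apply K F N c).symm
  obtain ⟨xN, hxN⟩ : ∃ xN : N, xN = algebraMap F N x := ⟨_, rfl⟩
  obtain ⟨yN, hyN⟩ : ∃ yN : N, yN = algebraMap F N y := ⟨_, rfl⟩
  obtain ⟨XN, hXN⟩ : ∃ XN : N, XN = algebraMap F N (aeval x P) := ⟨_, rfl⟩
  have hXx : XN = aeval xN P := by
    rw [hXN, hxN]
    exact (aeval_algebraMap_apply N x P).symm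
  have hyXN : yN ^ 2 = algebraMap K N e ^ 2 * (XN ^ 4 - 1) := by
    have h1 := congrArg (algebraMap F N) hfx
    rw [← hxy1, map_one, one_mul, map_pow, map_mul, map_pow, map_sub, map_pow, map_one, hKN] at h1
    rw [hyN, hXN]
    exact h1
  rw [← hXN] at hgen
  rw [← hxN, ← hyN]
  have hx0 : xN ≠ 0 := by
    rw [hxN]
    intro h
    rw [map_eq_zero] at h
    rw [h] at hx
    exact hx isAlgebraic_zero
  have hlc : algebraMap K C P.leadingCoeff ≠ 0 := by
    refine (_root_.map_ne_zero _).2 (leadingCoeff_ne_zero.2 ?_)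
    rintro rfl
    exact hP natDegree_zero
  have hcompat : ∀ σ (c : algebraicClosure K Ω) (z : N), (z : Ω) = (c : Ω) →
      (s.s σ z : Ω) = (σ c : Ω) := by
    intro σ c z hz
    have h1 : z = s.j c := Subtype.ext (hz.trans (hj c).symm)
    rw [h1, s.sec, hj]
  have hdec : ∀ σ, DecL ℚ_[2] (p.iot s.j) σ → ∀ z : N, (z : Ω) ∈ geomPro 2 K F Ω →
      (s.s σ z ∈ p.W ↔ z ∈ p.W) := fun σ hσ z _ => given_mem hp hσ z
  obtain ⟨-, hnum⟩ := numBoth (L := ℚ_[2]) hζ g (1 : K) one_ne_zero h3 hgm hs hgal hT hgood hLT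
    (p.iot s.j) x y hx (by rw [← hf]; exact hxy1) hF N hN s.s s.cont hcompat
  have hnum' := hnum p.W (fun c => by rw [hKN]; exact p.alg_mem c)
  simp only [map_sub, hKN, ← hxN, ← hyN, map_inv₀, map_div₀, map_pow] at hnum'
  -- poles of `x`
  have hpole : p.val xN⁻¹ 0 → p.val XN⁻¹ 0 := by
    intro h
    have h1 := (val_pole hx0 h P).inv hlc
    have h2 := h1.mul (h.pow P.natDegree)
    rw [zero_pow hP, mul_zero] at h2
    have h3 : (aeval xN P / xN ^ P.natDegree)⁻¹ * xN⁻¹ ^ P.natDegree = XN⁻¹ := by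
      rw [inv_div, inv_pow, ← hXx, div_mul_eq_mul_div, mul_inv_cancel₀ (pow_ne_zero _ hx0),
        one_div]
    rwa [h3] at h2
  have hX0 : XN ≠ 0 := by
    intro h
    rw [h] at hgen
    rcases hgen with h1 | h1 | h1
    · exact one_ne_zero (h1.unique Plc.val_zero)
    · exact (neg_ne_zero.2 one_ne_zero) (h1.unique Plc.val_zero)
    · rw [hXN, map_eq_zero] at h
      have h2 := (transcendental_aeval_iff (f := P)).2 ⟨hx, transcendental P hP
        (mem_nonZeroDivisors_of_ne_zero (leadingCoeff_ne_zero.2 (by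
          rintro rfl; exact hP natDegree_zero)))⟩
      rw [h] at h2
      exact h2 isAlgebraic_zero
  have hfinite : ∀ η : C, p.val XN η → η ^ 4 = 1 → (∃ c : K, algebraMap K C (P.eval c) = η ∧
      p.val xN (algebraMap K C c) ∧ p.val yN 0) := by
    intro η hη hη4
    have hxW : xN ∈ p.W := by
      by_contra h
      exact Plc.notMem_of_val_inv hX0 (hpole (Plc.val_inv_of_notMem h)) hη.mem
    have hyW : yN ∈ p.W := by
      apply Plc.mem_of_pow_mem (n := 2) two_pos
      rw [hyXN]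
      exact mul_mem (pow_mem (p.alg_mem e) _) (sub_mem (pow_mem hη.mem _) (one_mem _))
    obtain ⟨ξ, hξ⟩ := Plc.val_of_mem hxW
    obtain ⟨υ, hυ⟩ := Plc.val_of_mem hyW
    have hξη : aeval ξ P = η := by
      have h1 := Plc.val_aeval hξ P
      rw [← hXx] at h1
      exact h1.unique hη
    have hυ0 : υ = 0 := by
      have h1 := hυ.pow 2
      rw [hyXN] at h1
      have h2 := ((Plc.val_alg (pl := p) e).pow 2).mul ((hη.pow 4).sub Plc.val_one)
      rw [hη4, sub_self, mul_zero] at h2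
      exact pow_eq_zero_iff two_ne_zero |>.1 (h1.unique h2)
    rw [hυ0] at hυ
    -- the value `ξ` is algebraic
    have hroot : aeval ξ f = 0 := by
      rw [hf, hg]
      simp only [map_mul, map_sub, map_pow, map_one]
      rw [hξη, hη4, sub_self, mul_zero]
    have hιinj : Function.Injective (p.iot s.j) := (p.iot s.j).toRingHom.injective
    obtain ⟨θ, hθ⟩ : ∃ θ : algebraicClosure K Ω, p.iot s.j θ = ξ := by
      letI : Algebra (algebraicClosure K Ω) C := (p.iot s.j : algebraicClosure K Ω →+* C).toAlgebra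
      haveI : IsScalarTower K (algebraicClosure K Ω) C :=
        IsScalarTower.of_algebraMap_eq fun c => ((p.iot s.j).commutes c).symm
      have h1 : IsAlgebraic K ξ := ⟨f, hf0, hroot⟩
      have h2 : IsIntegral (algebraicClosure K Ω) ξ := h1.isIntegral.tower_top
      exact minpoly.mem_range_of_degree_eq_one _ ξ
        (IsAlgClosed.degree_eq_one_of_irreducible _ (minpoly.irreducible h2))
    have hθr : aeval θ f = 0 := by
      apply hιinj
      rw [← aeval_algHom_apply, hθ, hroot, map_zero]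
    have hθdec : ∀ σ, DecL ℚ_[2] (p.iot s.j) σ → σ θ = θ := by
      rintro σ ⟨τ, hτ⟩
      apply hιinj
      rw [hτ, hθ]
      have h1 := given_val hp hτ hξ
      have h2 : s.s σ xN = xN := by
        rw [hxN]
        exact (s.s σ).commutes x
      rw [h2] at h1
      exact h1.unique hξ
    -- `θ` is in `K`
    let H : Subgroup (algebraicClosure K Ω ≃ₐ[K] algebraicClosure K Ω) :=
      MulAction.stabilizer _ θ
    have hHm : ∀ σ, σ ∈ H ↔ σ θ = θ := fun σ => Iff.rfl
    have hGen : Gen 2 H := by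
      refine gen_of_locPow hζ (fun v hv => (hgood v hv).1) hLT (p.iot s.j) (fun v hv => ?_)
        fun σ hσ => (hHm σ).2 (hθdec σ hσ)
      obtain ⟨V, hV⟩ := exists_above (K := K) (algebraicClosure K Ω) v
      refine ⟨V, hV, fun σ hσ => ?_⟩
      rw [hHm]
      obtain ⟨-, hlcv, hsv, -⟩ := hgood v hv
      have hσr : aeval (σ θ) f = 0 := by
        have h1 := aeval_algHom_apply (σ : algebraicClosure K Ω →ₐ[K] algebraicClosure K Ω) θ f
        rw [hθr, map_zero] at h1
        exact h1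
      have hG := good_of (κ := algebraicClosure K Ω) g hlcv hsv hV (B := {θ, σ θ}) (by
        intro e he
        rw [Finset.mem_insert, Finset.mem_singleton] at he
        rw [← hf]
        rcases he with rfl | rfl
        · exact hθr
        · exact hσr)
      by_contra hne
      have h1 := hG.2 (σ θ) (by simp) θ (by simp) hne
      exact h1.not_nonunit (hσ.2 θ (hG.1 θ (by simp)))
    obtain ⟨E, hE1, hE2, hE3, hE4⟩ := exists_spl (κ := algebraicClosure K Ω) f
      (by rw [hf]; exact hgal)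
    haveI := hE1
    haveI := hE2
    have hfixall : ∀ σ : algebraicClosure K Ω ≃ₐ[K] algebraicClosure K Ω, σ θ = θ := fun σ =>
      Gen.fix hGen hζ hnorm E hE3 (hE4 θ hf0 hθr) (fun τ hτ => (hHm τ).1 hτ) σ
    obtain ⟨c, hc⟩ : ∃ c : K, algebraMap K (algebraicClosure K Ω) c = θ := by
      have h1 : θ ∈ (⊥ : IntermediateField K (algebraicClosure K Ω)) := by
        rw [InfiniteGalois.mem_bot_iff_fixed]
        exact hfixall
      exact IntermediateField.mem_bot.1 h1
    have hcξ : algebraMap K C c = ξ := by rw [← hθ, ← hc, (p.iot s.j).commutes]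
    refine ⟨c, ?_, by rw [hcξ]; exact hξ, hυ⟩
    rw [← hξη, ← hcξ, aeval_algebraMap_apply]
    rfl
  have hcaseFin : ∀ c : K, p.val xN (algebraMap K C c) → p.val yN 0 →
      ∀ σ, ∀ z : N, (z : Ω) ∈ geomPro 2 K F Ω → (s.s σ z ∈ p.W ↔ z ∈ p.W) := by
    intro c hc1 hc2
    refine hnum' (Or.inl ⟨c, 0, ?_, ?_⟩) hdec
    · apply val_zero_non
      have h1 := hc1.sub (Plc.val_alg (pl := p) c)
      rwa [sub_self] at h1
    · apply val_zero_non
      rw [map_zero, sub_zero]
      exact hc2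
  rcases hgen with h | h | h
  · obtain ⟨c, hc, hc1, hc2⟩ := hfinite 1 h (one_pow _)
    refine ⟨Or.inl ⟨c, Or.inl ?_, hc1, hc2⟩, hcaseFin c hc1 hc2⟩
    apply (algebraMap K C).injective
    rw [hc, map_one]
  · obtain ⟨c, hc, hc1, hc2⟩ := hfinite (-1) h (by norm_num)
    refine ⟨Or.inl ⟨c, Or.inr ?_, hc1, hc2⟩, hcaseFin c hc1 hc2⟩
    apply (algebraMap K C).injective
    rw [hc, map_neg, map_one]
  · have hxp : p.val xN⁻¹ 0 := by
      apply Plc.val_inv_of_notMem
      intro hxW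
      obtain ⟨ξ, hξ⟩ := Plc.val_of_mem hxW
      have h1 := (Plc.val_aeval hξ P).mem
      rw [← hXx] at h1
      exact Plc.notMem_of_val_inv hX0 h h1
    refine ⟨Or.inr hxp, ?_⟩
    -- the value of `y / x ^ (2 n)`
    have heN : algebraMap K N e ≠ 0 := (_root_.map_ne_zero _).2 he
    obtain ⟨q, hq⟩ : ∃ q : N, q = yN / (algebraMap K N e * XN ^ 2) := ⟨_, rfl⟩
    have hq2 : q ^ 2 = 1 - XN⁻¹ ^ 4 := by
      rw [hq, div_pow, hyXN]
      field_simp
    have hqW : q ∈ p.W := by
      apply Plc.mem_of_pow_mem (n := 2) two_pos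
      rw [hq2]
      exact sub_mem (one_mem _) (pow_mem h.mem _)
    obtain ⟨ε, hε⟩ := Plc.val_of_mem hqW
    have hε2 : ε ^ 2 = 1 := by
      have h1 := hε.pow 2
      rw [hq2] at h1
      have h2 := (Plc.val_one (pl := p)).sub (h.pow 4)
      rw [zero_pow (by norm_num), sub_zero] at h2
      exact h1.unique h2
    have hεK : ∃ ε' : K, algebraMap K C ε' = ε := by
      have h1 : (ε - 1) * (ε + 1) = 0 := by linear_combination hε2
      rcases mul_eq_zero.1 h1 with h2 | h2
      · exact ⟨1, by rw [map_one, sub_eq_zero.1 h2]⟩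
      · exact ⟨-1, by rw [map_neg, map_one, eq_neg_of_add_eq_zero_left h2]⟩
    obtain ⟨ε', hε'⟩ := hεK
    refine hnum' (Or.inr ⟨val_zero_non hxp, e * ε' * P.leadingCoeff ^ 2, ?_⟩) hdec
    apply val_zero_non
    have h1 := ((Plc.val_alg (pl := p) e).mul hε).mul ((val_pole hx0 hxp P).pow 2)
    have h2 : algebraMap K N e * q * (aeval xN P / xN ^ P.natDegree) ^ 2 =
        yN / xN ^ (2 * P.natDegree) := by
      rw [hq, ← hXx]
      field_simp
      ring
    rw [h2] at h1
    have h4 := h1.sub (Plc.val_alg (pl := p) (e * ε' * P.leadingCoeff ^ 2))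
    rw [map_mul (algebraMap K C), map_mul (algebraMap K C), hε', map_pow (algebraMap K C),
      sub_self] at h4
    exact h4

end fin

end Pool.Agent.Helper786_Ell
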