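import Pool.Agent.Helper786_Ell.Fin

/-!
# The conditions over the rational numbers
-/

set_option autoImplicit false
set_option linter.all false

open Polynomial IsDedekindDomain NumberField

namespace Pool.Agent.Helper786_Ell

open Pool.Agent.Helper786_Rig

theorem loc10 : LocPow 2 (PAt ℚ 10) ℚ_[2] := locPow_two (p := 5) (by norm_num) (by norm_num)

theorem not5 : ¬ DvdOutside 2 (PAt ℚ 2) (5 : ℚ) := by
  intro h
  haveI : Fact (Nat.Prime 5) := ⟨by norm_num⟩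
  have h1 := dvd_val (ℓ := 2) (q := 5) two_ne_zero (by norm_num : (5 : ℚ) ≠ 0) h fun v hv hvT => by
    have h2 := (mem_asIdeal v 2).1 hvT
    rw [hv] at h2
    omega
  have h2 : padicValRat 5 (5 : ℚ) = 1 := by
    have := padicValRat.self (p := 5) (by norm_num)
    exact_mod_cast this
  rw [h2] at h1
  norm_num at h1

theorem finite_pat (n : ℕ) (hn : n ≠ 0) : (PrimesAt n).Finite := by
  have h0 : (Ideal.span {(n : 𝓞 ℚ)}) ≠ 0 := by
    rw [Ideal.zero_eq_bot, Ne, Ideal.span_singleton_eq_bot]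
    exact_mod_cast hn
  refine (Ideal.finite_factors h0).subset fun v hv => ?_
  change v.asIdeal ∣ Ideal.span {(n : 𝓞 ℚ)}
  rw [Ideal.dvd_span_singleton]
  exact hv

/-- good reduction over the rational numbers -/
theorem good_rat {p : ℕ} (hp : p.Prime) (g : ℤ[X])
    (hlc : ∀ q : ℕ, q.Prime → q ≠ 2 → q ≠ p → ¬ (q : ℤ) ∣ g.leadingCoeff)
    (hsep : ∀ (q : ℕ) [Fact q.Prime], q ≠ 2 → q ≠ p →
      (g.map (Int.castRingHom (ZMod q))).Separable) (v : HeightOneSpectrum (𝓞 ℚ))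
    (hv : v ∉ PrimesAt (2 * p)) : GoodAt 2 (g.map (Int.castRingHom (𝓞 ℚ))) (1 : ℚ) v := by
  classical
  obtain ⟨q, hq⟩ : ∃ q : ℕ, q = (Rat.HeightOneSpectrum.primesEquiv v : ℕ) := ⟨_, rfl⟩
  have hqp : q.Prime := by rw [hq]; exact (Rat.HeightOneSpectrum.primesEquiv v).2
  haveI : Fact q.Prime := ⟨hqp⟩
  have hmem : ∀ n : ℕ, (n : 𝓞 ℚ) ∈ v.asIdeal ↔ q ∣ n := fun n => by rw [hq]; exact mem_asIdeal v n
  have hqn : ¬ q ∣ 2 * p := fun h => hv ((hmem _).2 h)
  have hq2 : q ≠ 2 := by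
    rintro rfl
    exact hqn (dvd_mul_right _ _)
  have hqp' : q ≠ p := by
    rintro rfl
    exact hqn (dvd_mul_left _ _)
  have hinj : Function.Injective (Int.castRingHom (𝓞 ℚ)) := RingHom.injective_int _
  have hint : ∀ n : ℤ, ((n : ℤ) : 𝓞 ℚ) ∈ v.asIdeal → (q : ℤ) ∣ n := by
    intro n hn
    rw [Int.natCast_dvd]
    apply (hmem _).1
    rcases Int.natAbs_eq n with h | h
    · rw [h] at hn
      simpa using hn
    · rw [h] at hn
      have := neg_mem hn
      simpa using this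
  refine ⟨?_, ?_, ?_, 1, ?_⟩
  · intro h
    have h1 := (hmem 2).1 h
    exact hq2 ((Nat.prime_dvd_prime_iff_eq hqp Nat.prime_two).1 h1)
  · rw [leadingCoeff_map_of_injective hinj]
    exact fun h => hlc q hqp hq2 hqp' (hint _ h)
  · haveI : v.asIdeal.IsMaximal := v.isMaximal
    letI := Ideal.Quotient.field v.asIdeal
    have hq0 : ((q : ℕ) : 𝓞 ℚ ⧸ v.asIdeal) = 0 := by
      rw [← map_natCast (Ideal.Quotient.mk v.asIdeal), Ideal.Quotient.eq_zero_iff_mem]
      exact (hmem q).2 dvd_rfl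
    haveI : CharP (𝓞 ℚ ⧸ v.asIdeal) q := by
      have h1 : ringChar (𝓞 ℚ ⧸ v.asIdeal) ∣ q := ringChar.dvd hq0
      rcases (Nat.dvd_prime hqp).1 h1 with h2 | h2
      · exact absurd h2 CharP.ringChar_ne_one
      · exact ringChar.of_eq h2
    have h1 : (g.map (Int.castRingHom (𝓞 ℚ))).map (Ideal.Quotient.mk v.asIdeal) =
        (g.map (Int.castRingHom (ZMod q))).map (ZMod.castHom dvd_rfl (𝓞 ℚ ⧸ v.asIdeal)) := by
      rw [Polynomial.map_map, Polynomial.map_map]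
      congr 1
      exact RingHom.ext_int _ _
    rw [h1]
    exact (hsep q hq2 hqp').map
  · rw [map_one, one_pow]

/-! ### radicals -/

theorem gal_pow {E : Type} [Field E] [Algebra ℚ E] (τ : E ≃ₐ[ℚ] E) (m : ℕ) :
    ∀ (c : E) (a : ℚ), c ^ 2 ^ m = algebraMap ℚ E a → (τ ^ 2 ^ m) c = c := by
  induction m with
  | zero =>
    intro c a h
    rw [pow_zero, pow_one] at h
    rw [h]
    exact AlgEquiv.commutes _ _
  | succ m ih =>
    intro c a h
    have h1 : (c ^ 2) ^ 2 ^ m = algebraMap ℚ E a := by rw [← pow_mul, ← pow_succ', h]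
    have h2 := ih (c ^ 2) a h1
    obtain ⟨ρ, hρ⟩ : ∃ ρ : E ≃ₐ[ℚ] E, ρ = τ ^ 2 ^ m := ⟨_, rfl⟩
    rw [← hρ] at h2
    have h3 : (ρ c - c) * (ρ c + c) = 0 := by
      rw [map_pow] at h2
      linear_combination h2
    have h4 : τ ^ 2 ^ (m + 1) = ρ * ρ := by rw [hρ, ← pow_add, pow_succ, mul_two]
    rw [h4, AlgEquiv.mul_apply]
    rcases mul_eq_zero.1 h3 with h5 | h5
    · have h6 : ρ c = c := sub_eq_zero.1 h5
      rw [h6, h6]
    · have h6 : ρ c = -c := eq_neg_of_add_eq_zero_left h5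
      rw [h6, map_neg, h6, neg_neg]

/-- the Galois group of `x ^ (2 ^ m) - a` is a `2`-group -/
theorem gal_two (m : ℕ) (a : ℚ) : IsPGroup 2 (X ^ 2 ^ m - C a : ℚ[X]).Gal := by
  intro τ
  refine ⟨m, ?_⟩
  refine Polynomial.Gal.ext _ fun x hx => ?_
  have h1 := aeval_eq_zero_of_mem_rootSet hx
  rw [map_sub, map_pow, aeval_X, aeval_C, sub_eq_zero] at h1
  exact gal_pow (E := (X ^ 2 ^ m - C a : ℚ[X]).SplittingField) τ m x a h1

end Pool.Agent.Helper786_Ell
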