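import Pool.Agent.Helper786_Rig.Ex2
import Mathlib.NumberTheory.Padics.Hensel

/-!
# Facts on the field `ℚ₂`
-/

set_option autoImplicit false
set_option linter.all false

open Polynomial

namespace Pool.Agent.Helper786_Ell

theorem norm_two : ‖(2 : ℚ_[2])‖ = 1 / 2 := by
  have h := Padic.norm_p (p := 2)
  norm_num at h ⊢
  exact h

theorem le_of_lt_pow {x : ℚ_[2]} {n : ℤ} (h : ‖x‖ < (2 : ℝ) ^ (n + 1)) : ‖x‖ ≤ (2 : ℝ) ^ n := by
  have h1 := (Padic.norm_le_pow_iff_norm_lt_pow_add_one x n).2 (by exact_mod_cast h)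
  exact_mod_cast h1

theorem half_of_lt {x : ℚ_[2]} (h : ‖x‖ < 1) : ‖x‖ ≤ 1 / 2 := by
  have h1 := le_of_lt_pow (x := x) (n := -1) (by norm_num; exact h)
  norm_num at h1 ⊢
  exact h1

theorem quarter_of_lt {x : ℚ_[2]} (h : ‖x‖ < 1 / 2) : ‖x‖ ≤ 1 / 4 := by
  have h1 := le_of_lt_pow (x := x) (n := -2) (by norm_num; norm_num at h; exact h)
  norm_num at h1 ⊢
  exact h1

/-- squares near one -/
theorem sq_near {t : ℚ_[2]} (ht : ‖t‖ ≤ 1 / 8) : ∃ w : ℚ_[2], w ^ 2 = 1 + t := by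
  have ht1 : ‖t‖ ≤ 1 := by linarith
  obtain ⟨u, hu⟩ : ∃ u : ℤ_[2], (u : ℚ_[2]) = t := ⟨⟨t, ht1⟩, rfl⟩
  have hun : ‖u‖ ≤ 1 / 8 := by
    rw [← PadicInt.padic_norm_e_of_padicInt, hu]; exact ht
  have h2 : ‖(2 : ℤ_[2])‖ = 1 / 2 := by
    have h := norm_two
    rw [← PadicInt.padic_norm_e_of_padicInt]
    exact_mod_cast h
  have hn : ‖aeval (1 : ℤ_[2]) (X ^ 2 - C (1 + u))‖ <
      ‖aeval (1 : ℤ_[2]) (derivative (X ^ 2 - C (1 + u)))‖ ^ 2 := by
    have e1 : aeval (1 : ℤ_[2]) (X ^ 2 - C (1 + u)) = -u := by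
      simp
    have e2 : aeval (1 : ℤ_[2]) (derivative (X ^ 2 - C (1 + u))) = 2 := by
      simp
      ring_nf
    rw [e1, e2, norm_neg, h2]
    norm_num
    norm_num at hun
    linarith
  obtain ⟨z, hz, -⟩ := hensels_lemma hn
  refine ⟨(z : ℚ_[2]), ?_⟩
  have h3 : z ^ 2 = 1 + u := by
    have h4 : z ^ 2 - (1 + u) = 0 := by
      have := hz
      simp at this
      linear_combination this
    linear_combination h4
  have h5 := congrArg (fun w : ℤ_[2] => (w : ℚ_[2])) h3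
  simp only [PadicInt.coe_pow, PadicInt.coe_add, PadicInt.coe_one] at h5
  rw [h5, hu]

/-- units are odd -/
theorem unit_sub {η : ℚ_[2]} (h : ‖η‖ = 1) : ‖η - 1‖ ≤ 1 / 2 := by
  apply half_of_lt
  obtain ⟨n, hn, hn'⟩ := PadicInt.exists_mem_range (p := 2) ⟨η, h.le⟩
  rw [IsLocalRing.mem_maximalIdeal, PadicInt.mem_nonunits, ← PadicInt.padic_norm_e_of_padicInt] at hn'
  simp only [PadicInt.coe_sub, PadicInt.coe_natCast] at hn'
  interval_cases n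
  · exfalso
    rw [Nat.cast_zero, sub_zero, h] at hn'
    exact lt_irrefl _ hn'
  · rw [Nat.cast_one] at hn'
    exact hn'

theorem norm_sub_le' (x y : ℚ_[2]) : ‖x - y‖ ≤ max ‖x‖ ‖y‖ := by
  rw [sub_eq_add_neg, ← norm_neg y]
  exact Padic.nonarchimedean _ _

theorem norm_add_of_lt {x y : ℚ_[2]} (h : ‖y‖ < ‖x‖) : ‖x + y‖ = ‖x‖ := by
  rw [Padic.add_eq_max_of_ne (ne_of_gt h), max_eq_left h.le]

theorem norm_sub_of_lt {x y : ℚ_[2]} (h : ‖y‖ < ‖x‖) : ‖x - y‖ = ‖x‖ := by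
  rw [sub_eq_add_neg]
  exact norm_add_of_lt (by rw [norm_neg]; exact h)

/-- a unit `a`: one of `a - 1`, `a + 1` is twice a unit and the other one is divisible by four -/
theorem odd_cases {a : ℚ_[2]} (h : ‖a‖ = 1) :
    (‖a - 1‖ ≤ 1 / 4 ∧ ‖a + 1‖ = 1 / 2) ∨ (‖a - 1‖ = 1 / 2 ∧ ‖a + 1‖ ≤ 1 / 4) := by
  have h1 := unit_sub h
  rcases lt_or_eq_of_le h1 with h2 | h2
  · left
    have h3 := quarter_of_lt h2
    refine ⟨h3, ?_⟩
    have h4 : a + 1 = 2 + (a - 1) := by ring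
    rw [h4, norm_add_of_lt (by rw [norm_two]; linarith), norm_two]
  · right
    refine ⟨h2, ?_⟩
    have h3 : ‖(1 - a) / 2‖ = 1 := by
      rw [norm_div, norm_sub_rev, h2, norm_two]; norm_num
    have h4 := unit_sub h3
    have h5 : a + 1 = -2 * ((1 - a) / 2 - 1) := by ring
    rw [h5, norm_mul, norm_neg, norm_two]
    linarith

theorem odd_sq {a : ℚ_[2]} (h : ‖a‖ = 1) : ‖a ^ 2 - 1‖ ≤ 1 / 8 := by
  have h1 : a ^ 2 - 1 = (a - 1) * (a + 1) := by ring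
  rw [h1, norm_mul]
  rcases odd_cases h with ⟨h2, h3⟩ | ⟨h2, h3⟩
  · rw [h3]; linarith
  · rw [h2]; linarith

/-- points of `v² = u³ - u` with a large coordinate -/
theorem two_big {a b : ℚ_[2]} (hab : b ^ 2 = a ^ 3 - a) (ha : 1 < ‖a‖) :
    (∃ w₀ w₁ w₂ : ℚ_[2], w₀ ^ 2 = a ∧ w₁ ^ 2 = a - 1 ∧ w₂ ^ 2 = a + 1) ∨
      ∃ w₀ w₁ : ℚ_[2], w₀ ^ 2 = a ∧ w₁ ^ 2 = 5 * (a - 1) := by
  have ha0 : a ≠ 0 := by
    rintro rfl
    rw [norm_zero] at ha
    linarith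
  have hlt : ‖a‖ < ‖a‖ ^ 3 := lt_self_pow₀ ha (by norm_num)
  have hnb : ‖b‖ ^ 2 = ‖a‖ ^ 3 := by
    rw [← norm_pow, hab, norm_sub_of_lt (by rw [norm_pow]; exact hlt), norm_pow]
  have hb0 : b ≠ 0 := by
    rintro rfl
    rw [norm_zero] at hnb
    nlinarith [pow_pos (norm_pos_iff.2 ha0) 3]
  obtain ⟨n, hn⟩ : ∃ n : ℤ, ‖a‖ = (2 : ℝ) ^ n := ⟨-a.valuation, by
    rw [Padic.norm_eq_zpow_neg_valuation ha0]; norm_num⟩
  obtain ⟨m, hm⟩ : ∃ m : ℤ, ‖b‖ = (2 : ℝ) ^ m := ⟨-b.valuation, by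
    rw [Padic.norm_eq_zpow_neg_valuation hb0]; norm_num⟩
  have hnm : m * 2 = n * 3 := by
    rw [hn, hm, ← zpow_natCast, ← zpow_natCast, ← zpow_mul, ← zpow_mul] at hnb
    exact zpow_right_injective₀ (by norm_num : (0 : ℝ) < 2) (by norm_num) hnb
  have hn0 : 0 < n := by
    by_contra hno
    push Not at hno
    have h1 : (2 : ℝ) ^ n ≤ 1 := zpow_le_one_of_nonpos₀ (by norm_num) hno
    rw [← hn] at h1
    linarith
  have hinv : ‖a⁻¹‖ = (2 : ℝ) ^ (-n) := by rw [norm_inv, hn, zpow_neg]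
  -- `a` is a square
  have hsq : ∃ w, w ^ 2 = a := by
    obtain ⟨w, hw⟩ := sq_near (t := -(a⁻¹) ^ 2) (by
      rw [norm_neg, norm_pow, hinv, ← zpow_natCast, ← zpow_mul]
      calc (2 : ℝ) ^ (-n * ((2 : ℕ) : ℤ)) ≤ (2 : ℝ) ^ (-3 : ℤ) :=
            zpow_le_zpow_right₀ (by norm_num) (by push_cast; omega)
        _ = 1 / 8 := by norm_num)
    have hw0 : w ≠ 0 := by
      rintro rfl
      have h3 : (a ^ 3 - a) = 0 := by
        have h4 : a ^ 3 - a = a ^ 3 * (1 + -(a⁻¹) ^ 2) := by field_simp; ring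
        rw [h4, ← hw]; ring
      rw [h3] at hab
      exact hb0 (pow_eq_zero_iff two_ne_zero |>.1 hab)
    refine ⟨b / (w * a), ?_⟩
    rw [div_pow, mul_pow, hw, hab, div_eq_iff]
    · field_simp
      ring
    · rw [← hw]; positivity
  obtain ⟨w₀, hw₀⟩ := hsq
  have hw00 : w₀ ≠ 0 := by
    rintro rfl
    apply ha0
    rw [← hw₀]; ring
  by_cases h4 : 4 ≤ n
  · left
    have hle : ‖a⁻¹‖ ≤ 1 / 8 := by
      rw [hinv]
      calc (2 : ℝ) ^ (-n) ≤ (2 : ℝ) ^ (-3 : ℤ) := zpow_le_zpow_right₀ (by norm_num) (by omega)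
        _ = 1 / 8 := by norm_num
    obtain ⟨w₁, hw₁⟩ := sq_near (t := -a⁻¹) (by rw [norm_neg]; exact hle)
    obtain ⟨w₂, hw₂⟩ := sq_near (t := a⁻¹) hle
    refine ⟨w₀, w₀ * w₁, w₀ * w₂, hw₀, ?_, ?_⟩
    · rw [mul_pow, hw₀, hw₁]; field_simp; ring
    · rw [mul_pow, hw₀, hw₂]; field_simp
  · right
    have hn2 : n = 2 := by omega
    have hη : ‖5 * a⁻¹ / 4‖ = 1 := by
      have h5 : ‖(5 : ℚ_[2])‖ = 1 := by
        have : (5 : ℚ_[2]) = 1 + 4 := by norm_num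
        rw [this, norm_add_of_lt]
        · exact norm_one
        · have : (4 : ℚ_[2]) = 2 * 2 := by norm_num
          rw [this, norm_mul, norm_two, norm_one]; norm_num
      have h6 : (4 : ℚ_[2]) = 2 * 2 := by norm_num
      rw [norm_div, norm_mul, h5, hinv, hn2, h6, norm_mul, norm_two]
      norm_num
    have h7 := unit_sub hη
    obtain ⟨w₁, hw₁⟩ := sq_near (t := -4 * (5 * a⁻¹ / 4 - 1)) (by
      have h6 : (4 : ℚ_[2]) = 2 * 2 := by norm_num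
      rw [norm_mul, norm_neg, h6, norm_mul, norm_two]
      rw [h6] at h7
      linarith)
    refine ⟨w₀, w₀ * w₁, hw₀, ?_⟩
    rw [mul_pow, hw₀, hw₁]
    field_simp
    ring

/-- the preimages under doubling -/
theorem new_pt {a c : ℚ_[2]} (h : a * (4 * (c ^ 3 - c)) = (c ^ 2 + 1) ^ 2) (hc : c ≠ 0)
    (hc1 : c ≠ 1) (hc2 : c ≠ -1) :
    (1 < ‖c‖ ∧ 4 * ‖c‖ ≤ ‖a‖) ∨ (1 < ‖-1 / c‖ ∧ 4 * ‖-1 / c‖ ≤ ‖a‖) ∨
    (1 < ‖(c + 1) / (c - 1)‖ ∧ 4 * ‖(c + 1) / (c - 1)‖ ≤ ‖a‖) ∨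
      (1 < ‖(1 - c) / (1 + c)‖ ∧ 4 * ‖(1 - c) / (1 + c)‖ ≤ ‖a‖) := by
  have hc0 : 0 < ‖c‖ := norm_pos_iff.2 hc
  have h4 : ‖(4 : ℚ_[2])‖ = 1 / 4 := by
    have h6 : (4 : ℚ_[2]) = 2 * 2 := by norm_num
    rw [h6, norm_mul, norm_two]; norm_num
  have hn := congrArg norm h
  rw [norm_mul, norm_mul, h4, norm_pow] at hn
  rcases lt_trichotomy 1 ‖c‖ with h1 | h1 | h1
  · left
    have e1 : ‖c ^ 3 - c‖ = ‖c‖ ^ 3 := by
      rw [norm_sub_of_lt, norm_pow]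
      rw [norm_pow]; exact lt_self_pow₀ h1 (by norm_num)
    have e2 : ‖c ^ 2 + 1‖ = ‖c‖ ^ 2 := by
      rw [norm_add_of_lt, norm_pow]
      rw [norm_pow, norm_one]; nlinarith
    rw [e1, e2] at hn
    refine ⟨h1, le_of_eq ?_⟩
    have h5 : ‖c‖ ^ 3 ≠ 0 := by positivity
    apply mul_right_cancel₀ h5
    linear_combination (-4) * hn
  · right; right
    have e2 : ‖c ^ 2 + 1‖ = 1 / 2 := by
      have h5 := odd_sq h1.symm
      have h6 : c ^ 2 + 1 = 2 + (c ^ 2 - 1) := by ring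
      rw [h6, norm_add_of_lt, norm_two]
      rw [norm_two]; linarith
    have e1 : ‖c ^ 3 - c‖ = ‖c - 1‖ * ‖c + 1‖ := by
      have h6 : c ^ 3 - c = c * ((c - 1) * (c + 1)) := by ring
      rw [h6, norm_mul, norm_mul, ← h1, one_mul]
    rw [e1, e2] at hn
    have hm : 0 < ‖c - 1‖ := norm_pos_iff.2 (sub_ne_zero.2 hc1)
    have hp : 0 < ‖c + 1‖ := norm_pos_iff.2 (by
      intro h5
      exact hc2 (eq_neg_of_add_eq_zero_left h5))
    rcases odd_cases h1.symm with ⟨h5, h6⟩ | ⟨h5, h6⟩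
    · left
      rw [norm_div, h6]
      rw [h6] at hn
      have h7 : 1 / 2 / ‖c - 1‖ * ‖c - 1‖ = 1 / 2 := by
        rw [div_mul_cancel₀ _ hm.ne']
      constructor
      · rw [lt_div_iff₀ hm]; linarith
      · apply le_of_eq
        apply mul_right_cancel₀ hm.ne'
        rw [mul_assoc, h7]
        linear_combination (-8) * hn
    · right
      have h8 : ‖(1 : ℚ_[2]) - c‖ = 1 / 2 := by rw [norm_sub_rev]; exact h5
      have h9 : (1 : ℚ_[2]) + c = c + 1 := by ring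
      rw [norm_div, h8, h9]
      rw [h5] at hn
      have h7 : 1 / 2 / ‖c + 1‖ * ‖c + 1‖ = 1 / 2 := by
        rw [div_mul_cancel₀ _ hp.ne']
      constructor
      · rw [lt_div_iff₀ hp]; linarith
      · apply le_of_eq
        apply mul_right_cancel₀ hp.ne'
        rw [mul_assoc, h7]
        linear_combination (-8) * hn
  · right; left
    have e1 : ‖c ^ 3 - c‖ = ‖c‖ := by
      have h6 : c ^ 3 - c = -c + c ^ 3 := by ring
      rw [h6, norm_add_of_lt, norm_neg]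
      rw [norm_neg, norm_pow]
      nlinarith [mul_lt_mul_of_pos_left h1 hc0, mul_pos hc0 hc0]
    have e2 : ‖c ^ 2 + 1‖ = 1 := by
      have h6 : c ^ 2 + 1 = 1 + c ^ 2 := by ring
      rw [h6, norm_add_of_lt, norm_one]
      rw [norm_one, norm_pow]; nlinarith
    rw [e1, e2] at hn
    have h7 : ‖-1 / c‖ = 1 / ‖c‖ := by rw [norm_div, norm_neg, norm_one]
    rw [h7]
    constructor
    · rw [lt_div_iff₀ hc0]; linarith
    · apply le_of_eq
      apply mul_right_cancel₀ hc0.ne'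
      rw [mul_assoc, div_mul_cancel₀ _ hc0.ne']
      linear_combination (-4) * hn

/-- the start of the descent -/
theorem start {a b : ℚ_[2]} (h : b ^ 2 = a ^ 4 - 1) (h1 : a ≠ 1) (h2 : a ≠ -1) :
    1 < ‖a ^ 2‖ ∨ 1 < ‖(a ^ 2 + 1) / (a ^ 2 - 1)‖ := by
  rcases lt_trichotomy 1 ‖a‖ with h3 | h3 | h3
  · left
    rw [norm_pow]; nlinarith
  · right
    have h5 := odd_sq h3.symm
    have h6 : a ^ 2 + 1 = 2 + (a ^ 2 - 1) := by ring
    have h7 : ‖a ^ 2 + 1‖ = 1 / 2 := by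
      rw [h6, norm_add_of_lt, norm_two]
      rw [norm_two]; linarith
    have h8 : 0 < ‖a ^ 2 - 1‖ := norm_pos_iff.2 (by
      intro h9
      have h10 : (a - 1) * (a + 1) = 0 := by linear_combination h9
      rcases mul_eq_zero.1 h10 with h11 | h11
      · exact h1 (sub_eq_zero.1 h11)
      · exact h2 (eq_neg_of_add_eq_zero_left h11))
    rw [norm_div, h7, lt_div_iff₀ h8]
    linarith
  · exfalso
    have h4 := half_of_lt h3
    obtain ⟨w, hw⟩ := sq_near (t := -a ^ 4) (by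
      rw [norm_neg, norm_pow]
      calc ‖a‖ ^ 4 ≤ (1 / 2) ^ 4 := pow_le_pow_left₀ (norm_nonneg _) h4 4
        _ ≤ 1 / 8 := by norm_num)
    have hw0 : w ≠ 0 := by
      rintro rfl
      have h5 : a ^ 4 = 1 := by linear_combination hw
      have h6 := congrArg norm h5
      rw [norm_pow, norm_one] at h6
      have h7 : ‖a‖ ^ 4 < 1 := pow_lt_one₀ (norm_nonneg _) h3 (by norm_num)
      linarith
    have h5 : (b / w) ^ 2 = ((-1 : ℤ) : ℚ_[2]) := by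
      rw [div_pow, h, hw, div_eq_iff]
      · push_cast; ring
      · rw [← hw]; positivity
    have h6 := Pool.Agent.Helper786_Rig.sq_mod h5
    revert h6
    decide

end Pool.Agent.Helper786_Ell
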